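import Pool.Agent.Helper619.LemmaI

set_option autoImplicit false
set_option linter.unusedSectionVars false

namespace Pool.Agent.Helper619

section Coeff

variable {F : Type} [Field F]

/-- Product of series with bounded below supports. -/
lemma coeff_mul_low (x y : HahnSeries ℤ F) (a b : ℤ) (hx : ∀ l < a, x.coeff l = 0)
    (hy : ∀ l < b, y.coeff l = 0) :
    (∀ l < a + b, (x * y).coeff l = 0) ∧ (x * y).coeff (a + b) = x.coeff a * y.coeff b := by
  constructor
  · intro l hl
    rw [HahnSeries.coeff_mul]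
    refine Finset.sum_eq_zero fun ij hij => ?_
    rw [Finset.mem_antidiagonal] at hij
    obtain ⟨_, _, h⟩ := hij
    by_cases h1 : ij.1 < a
    · rw [hx _ h1, zero_mul]
    · rw [hy _ (by omega), mul_zero]
  · rw [HahnSeries.coeff_mul]
    rw [Finset.sum_eq_single (a, b)]
    · intro ij hij hne
      rw [Finset.mem_antidiagonal] at hij
      obtain ⟨_, _, h⟩ := hij
      by_cases h1 : ij.1 < a
      · rw [hx _ h1, zero_mul]
      · by_cases h2 : ij.2 < b
        · rw [hy _ h2, mul_zero]
        · exact absurd (Prod.ext (by change ij.1 = a; omega) (by change ij.2 = b; omega)) hne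
    · intro hn
      rw [Finset.mem_antidiagonal] at hn
      simp only [HahnSeries.mem_support] at hn
      by_cases h1 : x.coeff a = 0
      · rw [h1, zero_mul]
      · by_cases h2 : y.coeff b = 0
        · rw [h2, mul_zero]
        · exact absurd ⟨h1, h2, trivial⟩ hn

/-- Power series to Laurent series. -/
noncomputable def toL (x : PowerSeries F) : HahnSeries ℤ F := HahnSeries.ofPowerSeries ℤ F x

lemma toL_coeff_nat (x : PowerSeries F) (n : ℕ) : (toL x).coeff (n : ℤ) = PowerSeries.coeff n x :=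
  HahnSeries.ofPowerSeries_apply_coeff x n

lemma toL_coeff_neg (x : PowerSeries F) (k : ℤ) (hk : k < 0) : (toL x).coeff k = 0 := by
  have h := PowerSeries.coeff_coe (f := x) k
  rw [if_pos hk] at h
  exact h

lemma toL_coeff_zero (x : PowerSeries F) : (toL x).coeff 0 = PowerSeries.constantCoeff x := by
  have := toL_coeff_nat x 0
  rwa [PowerSeries.coeff_zero_eq_constantCoeff_apply] at this

lemma exists_toL (x : HahnSeries ℤ F) (hx : ∀ k < 0, x.coeff k = 0) :
    ∃ p : PowerSeries F, toL p = x := by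
  refine ⟨PowerSeries.mk fun n => x.coeff (n : ℤ), ?_⟩
  ext k
  by_cases hk : k < 0
  · rw [toL_coeff_neg _ _ hk, hx k hk]
  · obtain ⟨n, rfl⟩ := Int.eq_ofNat_of_zero_le (not_lt.mp hk)
    rw [toL_coeff_nat, PowerSeries.coeff_mk]

lemma toL_mul (x y : PowerSeries F) : toL (x * y) = toL x * toL y := map_mul _ x y
lemma toL_add (x y : PowerSeries F) : toL (x + y) = toL x + toL y := map_add _ x y
lemma toL_sub (x y : PowerSeries F) : toL (x - y) = toL x - toL y := map_sub _ x y
lemma toL_neg (x : PowerSeries F) : toL (-x) = -toL x := map_neg _ x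
lemma toL_zero : toL (0 : PowerSeries F) = 0 := map_zero _
lemma toL_one : toL (1 : PowerSeries F) = 1 := map_one _
lemma toL_C (c : F) : toL (PowerSeries.C c) = HahnSeries.single 0 c := HahnSeries.ofPowerSeries_C c
lemma toL_X : toL (PowerSeries.X : PowerSeries F) = HahnSeries.single 1 1 :=
  HahnSeries.ofPowerSeries_X

lemma toL_psD (δ : Derivation ℤ F F) (x : PowerSeries F) : toL (psD δ x) = lD δ (toL x) := by
  ext k
  rw [lD_coeff]
  by_cases hk : k < 0
  · rw [toL_coeff_neg _ _ hk, toL_coeff_neg _ _ hk, map_zero]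
  · obtain ⟨n, rfl⟩ := Int.eq_ofNat_of_zero_le (not_lt.mp hk)
    rw [toL_coeff_nat, toL_coeff_nat, coeff_psD]

/-- Laurent series with coefficients in a subfield. -/
noncomputable def Ce (C : Subfield F) : Subring (HahnSeries ℤ F) where
  carrier := {x | ∀ k, x.coeff k ∈ C}
  mul_mem' := by
    intro x y hx hy k
    rw [HahnSeries.coeff_mul]
    exact C.sum_mem fun ij _ => C.mul_mem (hx _) (hy _)
  one_mem' := by
    intro k
    rw [HahnSeries.coeff_one]
    split_ifs
    · exact C.one_mem
    · exact C.zero_mem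
  add_mem' := by
    intro x y hx hy k
    rw [HahnSeries.coeff_add]
    exact C.add_mem (hx _) (hy _)
  zero_mem' := by
    intro k
    exact C.zero_mem
  neg_mem' := by
    intro x hx k
    rw [HahnSeries.coeff_neg]
    exact C.neg_mem (hx _)

lemma mem_Ce {C : Subfield F} {x : HahnSeries ℤ F} : x ∈ Ce C ↔ ∀ k, x.coeff k ∈ C := Iff.rfl

lemma single_mem_Ce {C : Subfield F} (k : ℤ) {c : F} (hc : c ∈ C) :
    HahnSeries.single k c ∈ Ce C := by
  intro j
  rw [HahnSeries.coeff_single]
  split_ifs
  · exact hc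
  · exact C.zero_mem

lemma lD_Ce {C : Subfield F} (δ : Derivation ℤ F F) (hδ : ∀ c ∈ C, δ c = 0)
    {x : HahnSeries ℤ F} (hx : x ∈ Ce C) : lD δ x = 0 := by
  ext k
  rw [lD_coeff, hδ _ (hx k)]
  rfl

lemma lD_Ce_mul {C : Subfield F} (δ : Derivation ℤ F F) (hδ : ∀ c ∈ C, δ c = 0)
    {c : HahnSeries ℤ F} (hc : c ∈ Ce C) (x : HahnSeries ℤ F) : lD δ (c * x) = c * lD δ x := by
  rw [lD_mul, lD_Ce δ hδ hc, mul_zero, add_zero]

end Coeff

section Span

variable {F : Type} [Field F] (C : Subfield F) (φ : F →+* HahnSeries ℤ F)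

/-- The Laurent series extension of scalars of a subset. -/
noncomputable def WW (V : Set F) : Submodule (Ce C) (HahnSeries ℤ F) := Submodule.span (Ce C) (φ '' V)

/-- Its intersection with power series. -/
noncomputable def PSV (V : Set F) : AddSubgroup (PowerSeries F) where
  carrier := {x | toL x ∈ WW C φ V}
  zero_mem' := by
    change toL 0 ∈ WW C φ V
    rw [toL_zero]; exact Submodule.zero_mem _
  add_mem' := by
    intro x y hx hy
    change toL (x + y) ∈ WW C φ V
    rw [toL_add]; exact Submodule.add_mem _ hx hy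
  neg_mem' := by
    intro x hx
    change toL (-x) ∈ WW C φ V
    rw [toL_neg]; exact Submodule.neg_mem _ hx

variable {C φ}

lemma mem_PSV {V : Set F} {x : PowerSeries F} : x ∈ PSV C φ V ↔ toL x ∈ WW C φ V := Iff.rfl

lemma WW_smul {V : Set F} {c x : HahnSeries ℤ F} (hc : c ∈ Ce C) (hx : x ∈ WW C φ V) :
    c * x ∈ WW C φ V :=
  Submodule.smul_mem (WW C φ V) (⟨c, hc⟩ : Ce C) hx

lemma WW_of_mem {V : Set F} {v : F} (hv : v ∈ V) : φ v ∈ WW C φ V :=
  Submodule.subset_span ⟨v, hv, rfl⟩

lemma PSV_C {V : Set F} : ∀ c ∈ C, ∀ x ∈ PSV C φ V, PowerSeries.C c * x ∈ PSV C φ V := by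
  intro c hc x hx
  rw [mem_PSV, toL_mul, toL_C]
  exact WW_smul (single_mem_Ce 0 hc) hx

lemma PSV_sat {V : Set F} : ∀ x, PowerSeries.X * x ∈ PSV C φ V → x ∈ PSV C φ V := by
  intro x hx
  rw [mem_PSV, toL_mul, toL_X] at hx
  have h := WW_smul (single_mem_Ce (-1) C.one_mem) hx
  rw [← mul_assoc, HahnSeries.single_mul_single, mul_one, neg_add_cancel,
    HahnSeries.single_zero_one, one_mul] at h
  exact h

/-- Coefficients of elements of the span. -/
lemma WW_coeff {V : Set F} (E : Subfield F) (hCE : C ≤ E)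
    (hV : ∀ v ∈ V, ∀ k, (φ v).coeff k ∈ E) {x : HahnSeries ℤ F} (hx : x ∈ WW C φ V) (k : ℤ) :
    x.coeff k ∈ E := by
  have h : ∀ k, x.coeff k ∈ E := by
    induction hx using Submodule.span_induction with
    | mem x h =>
      obtain ⟨v, hv, rfl⟩ := h
      exact hV v hv
    | zero => intro k; exact E.zero_mem
    | add x y _ _ hx hy =>
      intro k
      rw [HahnSeries.coeff_add]
      exact E.add_mem (hx k) (hy k)
    | smul c x _ hx =>
      intro k
      change ((c : HahnSeries ℤ F) * x).coeff k ∈ E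
      rw [HahnSeries.coeff_mul]
      exact E.sum_mem fun ij _ => E.mul_mem (hCE (c.2 _)) (hx _)
  exact h k

/-- Nonconstant reductions. -/
lemma exists_nonconst (hφC : ∀ x : F, (∀ k, (φ x).coeff k ∈ C) → x ∈ C)
    (f g : F) (hg0 : g ≠ 0) (hfg : f / g ∉ C) :
    ∃ x y : PowerSeries F, toL x ∈ WW C φ ({f, g} : Set F) ∧ toL y ∈ WW C φ ({g} : Set F) ∧
      PowerSeries.constantCoeff y ≠ 0 ∧
      PowerSeries.constantCoeff x / PowerSeries.constantCoeff y ∉ C := by
  classical
  set r : HahnSeries ℤ F := φ (f / g) with hr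
  have hex : ∃ k, r.coeff k ∉ C := by
    by_contra hcon
    push Not at hcon
    exact hfg (hφC _ hcon)
  let T : Set ℤ := {k | r.coeff k ∉ C}
  have hTsub : T ⊆ r.support := by
    intro k hk h0
    have h0' : r.coeff k = 0 := h0
    exact hk (by rw [h0']; exact C.zero_mem)
  have hTwf : T.IsWF := r.isWF_support.mono hTsub
  have hTne : T.Nonempty := hex
  set k0 := hTwf.min hTne with hk0
  have hk0T : r.coeff k0 ∉ C := hTwf.min_mem hTne
  have hk0min : ∀ l < k0, r.coeff l ∈ C := by
    intro l hl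
    by_contra hc
    exact hTwf.not_lt_min hTne (show l ∈ T from hc) hl
  set c : HahnSeries ℤ F := HahnSeries.truncLT k0 r with hc
  have hcC : c ∈ Ce C := by
    intro k
    by_cases hk : k < k0
    · rw [hc, HahnSeries.coeff_truncLT_of_lt hk]; exact hk0min k hk
    · rw [hc, HahnSeries.coeff_truncLT_of_le (not_lt.mp hk)]; exact C.zero_mem
  have hφg : φ g ≠ 0 := by rw [Ne, map_eq_zero]; exact hg0
  have hrg : φ f = r * φ g := by
    rw [hr, ← map_mul, div_mul_cancel₀ f hg0]
  set o := (φ g).order with ho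
  have ho1 : ∀ l < o, (φ g).coeff l = 0 := fun l hl => HahnSeries.coeff_eq_zero_of_lt_order hl
  have ho2 : (φ g).coeff o ≠ 0 := by
    rw [ho, Ne, HahnSeries.coeff_order_eq_zero]; exact hφg
  -- the element y
  set y' : HahnSeries ℤ F := HahnSeries.single (-o) 1 * φ g with hy'
  have hs1 : ∀ l < -o, (HahnSeries.single (-o) (1 : F)).coeff l = 0 := fun l hl =>
    HahnSeries.coeff_single_of_ne (ne_of_lt hl)
  obtain ⟨hy1, hy2⟩ := coeff_mul_low _ _ (-o) o hs1 ho1
  rw [neg_add_cancel, HahnSeries.coeff_single_same, one_mul] at hy2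
  rw [neg_add_cancel] at hy1
  obtain ⟨y, hy⟩ := exists_toL y' hy1
  -- the element x
  have hrc : ∀ l < k0, (r - c).coeff l = 0 := by
    intro l hl
    rw [HahnSeries.coeff_sub, hc, HahnSeries.coeff_truncLT_of_lt hl, sub_self]
  have hrc2 : (r - c).coeff k0 = r.coeff k0 := by
    rw [HahnSeries.coeff_sub, hc, HahnSeries.coeff_truncLT_of_le le_rfl, sub_zero]
  have hs2 : ∀ l < -k0, (HahnSeries.single (-k0) (1 : F)).coeff l = 0 := fun l hl =>
    HahnSeries.coeff_single_of_ne (ne_of_lt hl)
  obtain ⟨hu1, hu2⟩ := coeff_mul_low _ _ (-k0) k0 hs2 hrc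
  rw [neg_add_cancel, HahnSeries.coeff_single_same, one_mul, hrc2] at hu2
  rw [neg_add_cancel] at hu1
  obtain ⟨hx1, hx2⟩ := coeff_mul_low _ _ 0 0 hu1 hy1
  rw [add_zero] at hx1 hx2
  obtain ⟨x, hx⟩ := exists_toL _ hx1
  refine ⟨x, y, ?_, ?_, ?_, ?_⟩
  · rw [hx]
    have e : HahnSeries.single (-k0) 1 * (r - c) * y'
        = HahnSeries.single (-k0) 1 * (HahnSeries.single (-o) 1 * (φ f - c * φ g)) := by
      rw [hy', hrg]; ring
    rw [e]
    refine WW_smul (single_mem_Ce _ C.one_mem) (WW_smul (single_mem_Ce _ C.one_mem) ?_)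
    refine Submodule.sub_mem _ (WW_of_mem (by simp)) (WW_smul hcC (WW_of_mem (by simp)))
  · rw [hy]
    exact WW_smul (single_mem_Ce _ C.one_mem) (WW_of_mem (by simp))
  · rw [← toL_coeff_zero, hy, hy2]
    exact ho2
  · have hy0 : PowerSeries.constantCoeff y ≠ 0 := by
      rw [← toL_coeff_zero, hy, hy2]; exact ho2
    have hyy : (HahnSeries.single (-o) 1 * φ g).coeff 0 = PowerSeries.constantCoeff y := by
      rw [← toL_coeff_zero, hy]
    rw [← toL_coeff_zero, hx, hx2, hu2, hyy, mul_div_cancel_right₀ _ hy0]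
    exact hk0T

/-- Lifts of independent reductions are independent. -/
lemma indep_lift {ι : Type} [Fintype ι] (e : ι → F) (he : LinearIndependent C e)
    (x : ι → PowerSeries F) (hx : ∀ i, PowerSeries.constantCoeff (x i) = e i) :
    LinearIndependent (Ce C) (fun i => toL (x i)) := by
  classical
  rw [Fintype.linearIndependent_iff]
  intro g hg
  by_contra hcon
  push Not at hcon
  obtain ⟨i1, hi1⟩ := hcon
  -- minimal order
  let S : Finset ι := Finset.univ.filter fun i => g i ≠ 0
  have hS : S.Nonempty := ⟨i1, by simp [S, hi1]⟩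
  obtain ⟨i0, hi0, hmin⟩ := Finset.exists_min_image S
    (fun i => (g i : HahnSeries ℤ F).order) hS
  set k := (g i0 : HahnSeries ℤ F).order with hk
  have hgi0 : g i0 ≠ 0 := (Finset.mem_filter.mp hi0).2
  have hlow : ∀ i, ∀ l < k, (g i : HahnSeries ℤ F).coeff l = 0 := by
    intro i l hl
    by_cases hi : g i = 0
    · rw [hi]; rfl
    · have := hmin i (Finset.mem_filter.mpr ⟨Finset.mem_univ i, hi⟩)
      exact HahnSeries.coeff_eq_zero_of_lt_order (lt_of_lt_of_le hl this)
  have hsum : ∑ i, (g i : HahnSeries ℤ F).coeff k * e i = 0 := by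
    have h1 : (∑ i, g i • toL (x i)).coeff k = 0 := by rw [hg]; rfl
    rw [HahnSeries.coeff_sum] at h1
    rw [← h1]
    refine Finset.sum_congr rfl fun i _ => ?_
    have h2 := (coeff_mul_low (g i : HahnSeries ℤ F) (toL (x i)) k 0 (hlow i)
      (fun l hl => toL_coeff_neg _ _ hl)).2
    rw [add_zero, toL_coeff_zero, hx i] at h2
    exact h2.symm
  rw [Fintype.linearIndependent_iff] at he
  have h3 := he (fun i => ⟨(g i : HahnSeries ℤ F).coeff k, (g i).2 k⟩) (by
    rw [← hsum]
    refine Finset.sum_congr rfl fun i _ => ?_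
    rfl) i0
  have h4 : (g i0 : HahnSeries ℤ F).coeff k = 0 := congrArg Subtype.val h3
  rw [hk, HahnSeries.coeff_order_eq_zero] at h4
  exact hgi0 (Subtype.ext h4)

/-- The rank argument. -/
lemma rank_arg (hφC : ∀ c ∈ C, φ c ∈ Ce C) (V E : Submodule C F) [Module.Finite C E]
    (hVE : V ≤ E)
    (h : ∀ e ∈ E, ∃ x ∈ PSV C φ (V : Set F), PowerSeries.constantCoeff x = e) : E ≤ V := by
  classical
  have hfin : Module.Finite C V := Submodule.finiteDimensional_of_le hVE
  have hle : Module.finrank C E ≤ Module.finrank C V := by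
    set b := Module.finBasis C V with hb
    set bE := Module.finBasis C E with hbE
    choose x hx hx0 using fun i => h (bE i : F) (bE i).2
    have hindE : LinearIndependent C (fun i => (bE i : F)) := by
      have := bE.linearIndependent
      exact this.map' E.subtype (Submodule.ker_subtype E)
    have hind := indep_lift (C := C) (fun i => (bE i : F)) hindE x hx0
    have hspan : Set.range (fun i => toL (x i)) ⊆
        Submodule.span (Ce C) (Set.range fun j => φ (b j : F)) := by
      rintro _ ⟨i, rfl⟩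
      have h1 : WW C φ (V : Set F) ≤ Submodule.span (Ce C) (Set.range fun j => φ (b j : F)) := by
        rw [WW, Submodule.span_le]
        rintro _ ⟨v, hv, rfl⟩
        have h2 : v = ∑ j, (b.repr ⟨v, hv⟩ j : C) • (b j : F) := by
          have h3 := b.sum_repr ⟨v, hv⟩
          have h4 := congrArg (Submodule.subtype V) h3
          rw [map_sum] at h4
          exact h4.symm
        rw [h2, map_sum]
        refine Submodule.sum_mem _ fun j _ => ?_
        have h5 : φ ((b.repr ⟨v, hv⟩ j : C) • (b j : F))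
            = (⟨φ ((b.repr ⟨v, hv⟩ j : C) : F), hφC _ (b.repr ⟨v, hv⟩ j : C).2⟩ : Ce C)
              • φ (b j : F) := by
          change φ (((b.repr ⟨v, hv⟩ j : C) : F) * (b j : F)) = φ _ * φ (b j : F)
          rw [map_mul]
        rw [h5]
        exact Submodule.smul_mem _ _ (Submodule.subset_span ⟨j, rfl⟩)
      exact h1 (hx i)
    have h6 := linearIndependent_le_span' _ hind _ hspan
    have h7 : (Module.finrank C E : Cardinal) ≤ (Module.finrank C V : Cardinal) := by
      refine le_trans ?_ (le_trans h6 ?_)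
      · simp
      · have h8 := Fintype.card_range_le (fun j => φ (b j : F))
        rw [Fintype.card_fin] at h8
        exact_mod_cast h8
    exact_mod_cast h7
  rw [Submodule.eq_of_le_of_finrank_le hVE hle]

end Span

end Pool.Agent.Helper619
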