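import Mathlib

set_option autoImplicit false

namespace Pool.Agent.Helper619.EC

open Polynomial

/-- The coordinate ring `ℚ[x, y] / (y ^ 2 = x ^ 3 - 2)`. -/
abbrev RR : Type := QuadraticAlgebra ℚ[X] (X ^ 3 - C 2) 0

/-- The derivation `2 y d/dx`. -/
noncomputable def D (a : RR) : RR :=
  ⟨2 * (X ^ 3 - C 2) * derivative a.im + 3 * X ^ 2 * a.im, 2 * derivative a.re⟩

lemma derivative_C' (r : ℚ) : derivative (C r) = 0 := derivative_C

lemma D_add (a b : RR) : D (a + b) = D a + D b := by
  ext1
  · simp only [D, QuadraticAlgebra.re_add, QuadraticAlgebra.im_add, derivative_add]; ring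
  · simp only [D, QuadraticAlgebra.re_add, QuadraticAlgebra.im_add, derivative_add]; ring

lemma D_sub (a b : RR) : D (a - b) = D a - D b := by
  ext1
  · simp only [D, QuadraticAlgebra.re_sub, QuadraticAlgebra.im_sub, derivative_sub]; ring
  · simp only [D, QuadraticAlgebra.re_sub, QuadraticAlgebra.im_sub, derivative_sub]; ring

lemma D_smul (t : ℚ) (a : RR) : D (t • a) = t • D a := by
  ext1
  · simp only [D, QuadraticAlgebra.re_smul, QuadraticAlgebra.im_smul, smul_eq_C_mul,
      derivative_C_mul]
    ring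
  · simp only [D, QuadraticAlgebra.re_smul, QuadraticAlgebra.im_smul, smul_eq_C_mul,
      derivative_C_mul]
    ring

lemma dX3 : derivative ((X : ℚ[X]) ^ 3) = 3 * X ^ 2 := by
  rw [derivative_X_pow]
  norm_num
  rfl

lemma dX2 : derivative ((X : ℚ[X]) ^ 2) = 2 * X := by
  rw [derivative_X_pow]
  norm_num
  rfl

lemma D_mul (a b : RR) : D (a * b) = a * D b + b * D a := by
  have h3 := dX3
  ext1
  · simp only [D, QuadraticAlgebra.re_mul, QuadraticAlgebra.im_mul, QuadraticAlgebra.re_add,
      derivative_add, derivative_mul, derivative_sub, h3, derivative_C', derivative_zero]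
    ring
  · simp only [D, QuadraticAlgebra.re_mul, QuadraticAlgebra.im_mul, QuadraticAlgebra.im_add,
      derivative_add, derivative_mul, derivative_sub, h3, derivative_C']
    ring

/-- the bracket -/
noncomputable def w (a b : RR) : RR := a * D b - b * D a

lemma w_add_left (x y z : RR) : w (x + y) z = w x z + w y z := by
  simp only [w, D_add]; ring

lemma w_add_right (x y z : RR) : w x (y + z) = w x y + w x z := by
  simp only [w, D_add]; ring

lemma w_sub_right (x y z : RR) : w x (y - z) = w x y - w x z := by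
  simp only [w, D_sub]; ring

lemma w_self (x : RR) : w x x = 0 := by
  simp only [w, sub_self]

lemma w_zero_left (x : RR) : w 0 x = 0 := by
  have h := w_add_left 0 0 x
  rw [add_zero] at h
  exact left_eq_add.mp h

lemma w_zero_right (x : RR) : w x 0 = 0 := by
  have h := w_add_right x 0 0
  rw [add_zero] at h
  exact left_eq_add.mp h

lemma w_jacobi (x y z : RR) : w x (w y z) = w (w x y) z + w y (w x z) := by
  simp only [w, D_sub, D_mul]
  ring

lemma w_smul (t : ℚ) (x y : RR) : w x (t • y) = t • w x y := by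
  simp only [w, D_smul, smul_sub, mul_smul_comm, smul_mul_assoc]

lemma w_quartic (a b c e : RR) :
    4 * a * D e * w b c = w (w a (b * e)) c - w (w a b) (e * c) - w (w a (c * e)) b
      + w (w a c) (e * b) := by
  simp only [w, D_sub, D_mul, D_add]
  ring

lemma w_one (a : RR) : w 1 a = D a := by
  have h1 : D 1 = 0 := by
    ext1
    · change 2 * (X ^ 3 - C 2) * derivative (0 : ℚ[X]) + 3 * X ^ 2 * (0 : ℚ[X]) = 0
      rw [derivative_zero, mul_zero, mul_zero, add_zero]
    · change 2 * derivative (1 : ℚ[X]) = 0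
      rw [derivative_one, mul_zero]
  rw [w, h1, one_mul, mul_zero, sub_zero]

/-- The symbol map. -/
noncomputable def g (a : RR) : ℚ[X] := expand ℚ 2 a.re + X ^ 3 * expand ℚ 2 a.im

lemma g_add (a b : RR) : g (a + b) = g a + g b := by
  simp only [g, QuadraticAlgebra.re_add, QuadraticAlgebra.im_add, map_add]; ring

lemma g_sub (a b : RR) : g (a - b) = g a - g b := by
  simp only [g, QuadraticAlgebra.re_sub, QuadraticAlgebra.im_sub, map_sub]; ring

lemma g_smul (t : ℚ) (a : RR) : g (t • a) = t • g a := by
  simp only [g, QuadraticAlgebra.re_smul, QuadraticAlgebra.im_smul, smul_eq_C_mul, map_mul,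
    expand_C]
  ring

lemma g_coeff_even (a : RR) (i : ℕ) : (g a).coeff (2 * i) = a.re.coeff i := by
  rw [g, coeff_add, mul_comm 2 i, coeff_expand_mul (by norm_num), coeff_X_pow_mul']
  split_ifs with h
  · rw [coeff_expand (by norm_num), if_neg (by omega), add_zero]
  · rw [add_zero]

lemma g_coeff_odd (a : RR) (i : ℕ) : (g a).coeff (2 * i + 3) = a.im.coeff i := by
  rw [g, coeff_add, coeff_expand (by norm_num), if_neg (by omega), zero_add, coeff_X_pow_mul,
    mul_comm, coeff_expand_mul (by norm_num)]

lemma g_ne {a : RR} (h : a ≠ 0) : g a ≠ 0 := by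
  intro h0
  apply h
  ext i
  · rw [← g_coeff_even, h0]; simp
  · rw [← g_coeff_odd, h0]; simp

lemma g_w (a b : RR) : g (w a b) = X ^ 2 * (g a * derivative (g b) - derivative (g a) * g b)
    + (C 4 * (g b * expand ℚ 2 (derivative a.im) - g a * expand ℚ 2 (derivative b.im))
      + C 4 * (expand ℚ 2 (derivative a.re * b.im) - expand ℚ 2 (a.im * derivative b.re))) := by
  have h3 := dX3
  have hd : ∀ p : ℚ[X], derivative (expand ℚ 2 p) = expand ℚ 2 (derivative p) * (2 * X) := by
    intro p
    rw [derivative_expand]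
    norm_num
  simp only [g, w, D, QuadraticAlgebra.re_mul, QuadraticAlgebra.im_mul, QuadraticAlgebra.re_sub,
    QuadraticAlgebra.im_sub, derivative_mul, h3, hd, map_add, map_sub, map_mul,
    map_pow, expand_X, map_ofNat, map_zero]
  ring

/-- the degree of `X ^ 2 (u v' - u' v)` -/
lemma natDegree_br {u v : ℚ[X]} (hu : u ≠ 0) (hv : v ≠ 0)
    (h : u.natDegree ≠ v.natDegree) :
    X ^ 2 * (u * derivative v - derivative u * v) ≠ 0 ∧
      (X ^ 2 * (u * derivative v - derivative u * v)).natDegree
        = u.natDegree + v.natDegree + 1 := by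
  set a := u.natDegree with ha
  set b := v.natDegree with hb
  have hc : (X ^ 2 * (u * derivative v - derivative u * v)).coeff (a + b + 1)
      = ((b : ℚ) - (a : ℚ)) * (u.leadingCoeff * v.leadingCoeff) := by
    have h1 : (u * derivative v).coeff (a + b - 1) = (b : ℚ) * (u.leadingCoeff * v.leadingCoeff) := by
      rcases Nat.eq_zero_or_pos b with hb0 | hb0
      · have : derivative v = 0 := by
          have : v.natDegree = 0 := by rw [← hb]; exact hb0
          exact derivative_of_natDegree_zero this
        rw [this, mul_zero, hb0]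
        simp
      · have e1 : a + b - 1 = a + (b - 1) := by omega
        rw [e1, coeff_mul_add_eq_of_natDegree_le (le_of_eq ha.symm) (natDegree_derivative_le v)]
        rw [coeff_derivative, Nat.sub_add_cancel hb0]
        have : ((b - 1 : ℕ) : ℚ) + 1 = (b : ℚ) := by
          rw [← Nat.cast_add_one, Nat.sub_add_cancel hb0]
        rw [this]
        simp only [leadingCoeff, ← ha, ← hb]
        ring
    have h2 : (derivative u * v).coeff (a + b - 1) = (a : ℚ) * (u.leadingCoeff * v.leadingCoeff) := by
      rcases Nat.eq_zero_or_pos a with ha0 | ha0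
      · have : derivative u = 0 := by
          have : u.natDegree = 0 := by rw [← ha]; exact ha0
          exact derivative_of_natDegree_zero this
        rw [this, zero_mul, ha0]
        simp
      · have e1 : a + b - 1 = (a - 1) + b := by omega
        rw [e1, coeff_mul_add_eq_of_natDegree_le (natDegree_derivative_le u) (le_of_eq hb.symm)]
        rw [coeff_derivative, Nat.sub_add_cancel ha0]
        have : ((a - 1 : ℕ) : ℚ) + 1 = (a : ℚ) := by
          rw [← Nat.cast_add_one, Nat.sub_add_cancel ha0]
        rw [this]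
        simp only [leadingCoeff, ← ha, ← hb]
        ring
    have h3 : a + b + 1 = (a + b - 1) + 2 := by omega
    rw [mul_comm, h3, coeff_mul_X_pow, coeff_sub, h1, h2]
    ring
  have hne : (X ^ 2 * (u * derivative v - derivative u * v)).coeff (a + b + 1) ≠ 0 := by
    rw [hc]
    refine mul_ne_zero ?_ (mul_ne_zero (leadingCoeff_ne_zero.mpr hu) (leadingCoeff_ne_zero.mpr hv))
    rw [sub_ne_zero]
    intro h'
    exact h (Nat.cast_injective h').symm
  refine ⟨fun h0 => hne (by rw [h0, coeff_zero]), le_antisymm ?_ (le_natDegree_of_ne_zero hne)⟩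
  rw [natDegree_le_iff_coeff_eq_zero]
  intro N hN
  have h3 : N = (N - 2) + 2 := by omega
  rw [mul_comm, h3, coeff_mul_X_pow, coeff_sub]
  have e1 : (u * derivative v).coeff (N - 2) = 0 := by
    rcases Nat.eq_zero_or_pos b with hb0 | hb0
    · have : derivative v = 0 := by
        have : v.natDegree = 0 := by rw [← hb]; exact hb0
        exact derivative_of_natDegree_zero this
      rw [this, mul_zero, coeff_zero]
    · apply coeff_eq_zero_of_natDegree_lt
      refine lt_of_le_of_lt natDegree_mul_le ?_
      have := natDegree_derivative_le v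
      omega
  have e2 : (derivative u * v).coeff (N - 2) = 0 := by
    rcases Nat.eq_zero_or_pos a with ha0 | ha0
    · have : derivative u = 0 := by
        have : u.natDegree = 0 := by rw [← ha]; exact ha0
        exact derivative_of_natDegree_zero this
      rw [this, zero_mul, coeff_zero]
    · apply coeff_eq_zero_of_natDegree_lt
      refine lt_of_le_of_lt natDegree_mul_le ?_
      have := natDegree_derivative_le u
      omega
  rw [e1, e2, sub_zero]

lemma re_le (a : RR) : a.re.natDegree * 2 ≤ (g a).natDegree := by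
  by_cases h : a.re = 0
  · rw [h]; simp
  · apply le_natDegree_of_ne_zero
    rw [mul_comm, g_coeff_even]
    exact leadingCoeff_ne_zero.mpr h

lemma im_le (a : RR) : a.im.natDegree * 2 ≤ (g a).natDegree := by
  by_cases h : a.im = 0
  · rw [h]; simp
  · have : 2 * a.im.natDegree + 3 ≤ (g a).natDegree := by
      apply le_natDegree_of_ne_zero
      rw [g_coeff_odd]
      exact leadingCoeff_ne_zero.mpr h
    omega

lemma natDegree_expand_le {p : ℚ[X]} {m : ℕ} (h : p.natDegree * 2 ≤ m) :
    (expand ℚ 2 p).natDegree ≤ m := by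
  rwa [natDegree_expand]

lemma natDegree_w {a b : RR} (ha : a ≠ 0) (hb : b ≠ 0)
    (h : (g a).natDegree ≠ (g b).natDegree) :
    w a b ≠ 0 ∧ (g (w a b)).natDegree = (g a).natDegree + (g b).natDegree + 1 := by
  obtain ⟨h1, h2⟩ := natDegree_br (g_ne ha) (g_ne hb) h
  set m := (g a).natDegree with hm
  set n := (g b).natDegree with hn
  have hda : ∀ p : ℚ[X], (derivative p).natDegree ≤ p.natDegree :=
    fun p => (natDegree_derivative_le p).trans (Nat.sub_le _ _)
  have e1 : (g b * expand ℚ 2 (derivative a.im)).natDegree ≤ m + n := by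
    refine natDegree_mul_le.trans ?_
    have := natDegree_expand_le (p := derivative a.im) (m := m)
      (by have := im_le a; have := hda a.im; omega)
    omega
  have e2 : (g a * expand ℚ 2 (derivative b.im)).natDegree ≤ m + n := by
    refine natDegree_mul_le.trans ?_
    have := natDegree_expand_le (p := derivative b.im) (m := n)
      (by have := im_le b; have := hda b.im; omega)
    omega
  have e3 : (expand ℚ 2 (derivative a.re * b.im)).natDegree ≤ m + n := by
    refine natDegree_expand_le ?_
    have h4 := natDegree_mul_le (p := derivative a.re) (q := b.im)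
    have := re_le a
    have := im_le b
    have := hda a.re
    omega
  have e4 : (expand ℚ 2 (a.im * derivative b.re)).natDegree ≤ m + n := by
    refine natDegree_expand_le ?_
    have h4 := natDegree_mul_le (p := a.im) (q := derivative b.re)
    have := im_le a
    have := re_le b
    have := hda b.re
    omega
  have e5 : (C 4 * (g b * expand ℚ 2 (derivative a.im) - g a * expand ℚ 2 (derivative b.im))
      + C 4 * (expand ℚ 2 (derivative a.re * b.im) - expand ℚ 2 (a.im * derivative b.re))).natDegree
      ≤ m + n := by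
    refine (natDegree_add_le _ _).trans (max_le ?_ ?_)
    · exact (natDegree_C_mul_le _ _).trans ((natDegree_sub_le _ _).trans (max_le e1 e2))
    · exact (natDegree_C_mul_le _ _).trans ((natDegree_sub_le _ _).trans (max_le e3 e4))
  have e6 : (g (w a b)).natDegree = m + n + 1 := by
    rw [g_w, natDegree_add_eq_left_of_natDegree_lt, h2]
    rw [h2]
    omega
  refine ⟨?_, e6⟩
  intro h0
  rw [h0] at e6
  have : g 0 = 0 := by simp [g]
  rw [this, natDegree_zero] at e6
  omega

/-- The Lie algebra of vector fields. -/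
def LL : Type := RR

noncomputable instance : AddCommGroup LL := inferInstanceAs (AddCommGroup RR)
noncomputable instance : Module ℚ LL := inferInstanceAs (Module ℚ RR)

noncomputable instance : Bracket LL LL := ⟨fun x y => w x y⟩

noncomputable instance : LieRing LL where
  add_lie x y z := w_add_left x y z
  lie_add x y z := w_add_right x y z
  lie_self x := w_self x
  leibniz_lie x y z := w_jacobi x y z

noncomputable instance : LieAlgebra ℚ LL where
  lie_smul t x y := w_smul t x y

/-- purity, for submodules of the ring -/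
theorem pure_aux (a : RR) (V : Submodule ℚ RR) (hfd : FiniteDimensional ℚ V)
    (hV : ∀ v ∈ V, w a v ∈ V) : ∀ v ∈ V, w a v = 0 := by
  by_contra hcon
  push Not at hcon
  obtain ⟨v0, hv0, hav0⟩ := hcon
  -- degrees are bounded on `V`
  obtain ⟨N, hN⟩ : ∃ N : ℕ, ∀ v ∈ V, (g v).natDegree ≤ N := by
    have hfg : V.FG := Module.Finite.iff_fg.mp hfd
    obtain ⟨s, hs⟩ := hfg
    refine ⟨s.sup (fun v => (g v).natDegree), ?_⟩
    intro v hv
    rw [← hs] at hv
    induction hv using Submodule.span_induction with
    | mem x hx => exact Finset.le_sup (f := fun v => (g v).natDegree) hx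
    | zero =>
      have : g 0 = 0 := by simp [g]
      rw [this, natDegree_zero]
      exact Nat.zero_le _
    | add x y _ _ hx hy =>
      rw [g_add]
      exact (natDegree_add_le _ _).trans (max_le hx hy)
    | smul c x _ hx =>
      rw [g_smul]
      exact (natDegree_smul_le _ _).trans hx
  have ha0 : a ≠ 0 := by
    rintro rfl
    exact hav0 (w_zero_left _)
  -- raising the degree
  have hstep : ∀ v ∈ V, w a v ≠ 0 → w a (w a v) ≠ 0 ∧ (g v).natDegree < (g (w a v)).natDegree := by
    intro v _ hav
    have hv0 : v ≠ 0 := by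
      rintro rfl
      exact hav (w_zero_right _)
    by_cases hd : (g a).natDegree = (g v).natDegree
    · -- subtract a multiple of `a`
      set c : ℚ := (g v).leadingCoeff / (g a).leadingCoeff with hc
      set v' := v - c • a with hv'
      have hlc : (g a).leadingCoeff ≠ 0 := leadingCoeff_ne_zero.mpr (g_ne ha0)
      have hwa : w a v' = w a v := by
        rw [hv', w_sub_right, w_smul, w_self, smul_zero, sub_zero]
      have hv'0 : v' ≠ 0 := by
        intro h0
        apply hav
        rw [← hwa, h0]
        exact w_zero_right _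
      have hdeg : (g v').natDegree < (g a).natDegree := by
        have h1 : (g v').coeff (g a).natDegree = 0 := by
          rw [hv', g_sub, g_smul, coeff_sub, coeff_smul, smul_eq_mul]
          have e1 : (g v).coeff (g a).natDegree = (g v).leadingCoeff := by
            rw [leadingCoeff, hd]
          have e2 : (g a).coeff (g a).natDegree = (g a).leadingCoeff := rfl
          rw [e1, e2, hc, div_mul_cancel₀ _ hlc, sub_self]
        have h2 : (g v').natDegree ≤ (g a).natDegree := by
          rw [hv', g_sub, g_smul]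
          refine (natDegree_sub_le _ _).trans (max_le (le_of_eq hd.symm) (natDegree_smul_le _ _))
        rcases eq_or_lt_of_le h2 with h3 | h3
        · rw [← h3] at h1
          exact absurd h1 (leadingCoeff_ne_zero.mpr (g_ne hv'0))
        · exact h3
      obtain ⟨h1, h2⟩ := natDegree_w ha0 hv'0 (ne_of_gt hdeg)
      rw [hwa] at h1 h2
      have h3 : (g a).natDegree ≠ (g (w a v)).natDegree := by omega
      obtain ⟨h4, _⟩ := natDegree_w ha0 h1 h3
      exact ⟨h4, by omega⟩
    · obtain ⟨h1, h2⟩ := natDegree_w ha0 hv0 hd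
      have h3 : (g a).natDegree ≠ (g (w a v)).natDegree := by omega
      obtain ⟨h4, _⟩ := natDegree_w ha0 h1 h3
      exact ⟨h4, by omega⟩
  have hall : ∀ n : ℕ, ∃ v ∈ V, w a v ≠ 0 ∧ n ≤ (g v).natDegree := by
    intro n
    induction n with
    | zero => exact ⟨v0, hv0, hav0, Nat.zero_le _⟩
    | succ n ih =>
      obtain ⟨v, hv, hav, hn⟩ := ih
      obtain ⟨h1, h2⟩ := hstep v hv hav
      exact ⟨w a v, hV v hv, h1, by omega⟩
  obtain ⟨v, hv, _, hn⟩ := hall (N + 1)
  have := hN v hv
  omega

/-- `X ^ 3 - 2` is irreducible. -/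
lemma irr : Irreducible ((X : ℚ[X]) ^ 3 - C 2) := by
  apply X_pow_sub_C_irreducible_of_prime Nat.prime_three
  intro b hb
  have hb0 : b ≠ 0 := by
    rintro rfl
    norm_num at hb
  have h1 : padicValRat 2 (b ^ 3) = 3 * padicValRat 2 b := by
    rw [padicValRat.pow]
    norm_num
  rw [hb] at h1
  have h2 : padicValRat 2 2 = 1 := by
    have := padicValRat.self (p := 2) (by norm_num)
    exact_mod_cast this
  rw [h2] at h1
  omega

/-- key polynomial lemma -/
lemma unit_of_dvd {p : ℚ[X]} (hp : p ≠ 0) (h1 : p ∣ 2 * (X ^ 3 - C 2) * derivative p)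
    (h2 : p ∣ 2 * (3 * X ^ 2) * derivative p + 4 * (X ^ 3 - C 2) * derivative (derivative p)) :
    IsUnit p := by
  by_contra hu
  have hdeg : 0 < p.natDegree := by
    rw [Nat.pos_iff_ne_zero]
    intro h0
    apply hu
    rw [natDegree_eq_zero] at h0
    obtain ⟨c, hc⟩ := h0
    rw [← hc, isUnit_C, isUnit_iff_ne_zero]
    rintro rfl
    exact hp (by rw [← hc, C_0])
  obtain ⟨s2, hs2⟩ := h1
  -- `2 f p' = p s2`
  set f : ℚ[X] := X ^ 3 - C 2 with hf
  have hfirr : Irreducible f := irr
  have hfp : Prime f := hfirr.prime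
  have hfdeg : f.natDegree = 3 := natDegree_X_pow_sub_C
  have hf0 : f ≠ 0 := hfirr.ne_zero
  have hflc : f.leadingCoeff = 1 := leadingCoeff_X_pow_sub_C (by norm_num)
  have hfd : derivative f = 3 * X ^ 2 := by
    rw [hf, derivative_sub, dX3, derivative_C, sub_zero]
  have hdp : (derivative p).natDegree = p.natDegree - 1 := by
    rw [natDegree_derivative]
  have hdp0 : derivative p ≠ 0 := by
    intro h0
    have := derivative_eq_zero.mp h0
    omega
  have hdlc : (derivative p).leadingCoeff = p.leadingCoeff * p.natDegree := by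
    rw [leadingCoeff, hdp, coeff_derivative, Nat.sub_add_cancel hdeg, leadingCoeff]
    congr 1
    rw [← Nat.cast_add_one, Nat.sub_add_cancel hdeg]
  have hC2 : (2 : ℚ[X]) = C 2 := rfl
  have hs20 : s2 ≠ 0 := by
    rintro rfl
    rw [mul_zero, mul_eq_zero, mul_eq_zero] at hs2
    rcases hs2 with (h | h) | h
    · rw [hC2, C_eq_zero] at h; norm_num at h
    · exact hf0 h
    · exact hdp0 h
  have hs2deg : s2.natDegree = 2 := by
    have h3 := congrArg natDegree hs2
    rw [natDegree_mul (mul_ne_zero (by rw [hC2, Ne, C_eq_zero]; norm_num) hf0) hdp0,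
      natDegree_mul (by rw [hC2, Ne, C_eq_zero]; norm_num) hf0, natDegree_mul hp hs20, hdp, hfdeg,
      hC2, natDegree_C] at h3
    omega
  -- `2 f' p' + 4 f p'' ≡ 2 p' s2 - 2 f' p'`
  have h3 : p ∣ derivative p * (s2 - derivative f) * 2 := by
    have h4 : derivative (2 * f * derivative p) = derivative (p * s2) := by rw [hs2]
    rw [derivative_mul, derivative_mul, derivative_mul, hC2, derivative_C, zero_mul, zero_add,
      ← hC2] at h4
    obtain ⟨t, ht⟩ := h2
    rw [← hfd] at ht
    refine ⟨t - 2 * derivative s2, ?_⟩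
    linear_combination ht - 2 * h4
  obtain ⟨t, ht⟩ := h3
  -- multiply by `f`
  have h5 : f * t = s2 * (s2 - derivative f) := by
    have h6 : p * (f * t) = p * (s2 * (s2 - derivative f)) := by
      linear_combination (s2 - derivative f) * hs2 - f * ht
    exact mul_left_cancel₀ hp h6
  have h7 : f ∣ s2 * (s2 - derivative f) := ⟨t, h5.symm⟩
  have hfd2 : (derivative f).natDegree ≤ 2 := by
    have := natDegree_derivative_le f
    omega
  rcases hfp.dvd_or_dvd h7 with h8 | h8
  · have := natDegree_le_of_dvd h8 hs20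
    omega
  · by_cases h9 : s2 - derivative f = 0
    · -- compare leading coefficients
      rw [sub_eq_zero.mp h9] at hs2
      have h10 := congrArg leadingCoeff hs2
      have hfdlc : (derivative f).leadingCoeff = 3 := by
        rw [leadingCoeff, natDegree_derivative, hfdeg, coeff_derivative]
        have : f.coeff 3 = 1 := by
          have := hflc
          rwa [leadingCoeff, hfdeg] at this
        norm_num [this]
      rw [leadingCoeff_mul, leadingCoeff_mul, leadingCoeff_mul, hflc, hdlc, hfdlc, hC2,
        leadingCoeff_C] at h10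
      have hplc : p.leadingCoeff ≠ 0 := leadingCoeff_ne_zero.mpr hp
      have h11 : p.leadingCoeff * ((2 : ℚ) * p.natDegree) = p.leadingCoeff * 3 := by
        linear_combination h10
      have h12 := mul_left_cancel₀ hplc h11
      have h13 : 2 * p.natDegree = 3 := by exact_mod_cast h12
      omega
    · have h10 := natDegree_le_of_dvd h8 h9
      have h11 := natDegree_sub_le s2 (derivative f)
      omega

/-- the ring has no nonzero proper ideal stable under `D` -/
theorem D_simple (J : Ideal RR) (hJ : J ≠ ⊥) (hD : ∀ a ∈ J, D a ∈ J) : J = ⊤ := by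
  obtain ⟨a, ha, ha0⟩ := Submodule.exists_mem_ne_zero_of_ne_bot hJ
  -- the ideal of the polynomials in `J`
  let K : Ideal ℚ[X] := J.comap (algebraMap ℚ[X] RR)
  have hK : ∀ p : ℚ[X], p ∈ K ↔ (⟨p, 0⟩ : RR) ∈ J := fun p => Iff.rfl
  have hKne : K ≠ ⊥ := by
    intro hbot
    have h1 : (a.re * a.re - (X ^ 3 - C 2) * a.im * a.im) ∈ K := by
      rw [hK]
      have h2 : (⟨a.re * a.re - (X ^ 3 - C 2) * a.im * a.im, 0⟩ : RR)
          = (⟨a.re, -a.im⟩ : RR) * a := by
        ext1
        · rw [QuadraticAlgebra.re_mul]; ring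
        · rw [QuadraticAlgebra.im_mul]; ring
      rw [h2]
      exact J.mul_mem_left _ ha
    rw [hbot, Ideal.mem_bot, sub_eq_zero] at h1
    have hf0 : ((X : ℚ[X]) ^ 3 - C 2) ≠ 0 := irr.ne_zero
    have hfdeg : ((X : ℚ[X]) ^ 3 - C 2).natDegree = 3 := natDegree_X_pow_sub_C
    by_cases hv : a.im = 0
    · rw [hv, mul_zero, mul_self_eq_zero] at h1
      apply ha0
      ext1
      · exact h1
      · exact hv
    · have hu : a.re ≠ 0 := by
        intro hu
        rw [hu, mul_zero] at h1
        exact (mul_ne_zero (mul_ne_zero hf0 hv) hv) h1.symm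
      have h2 := congrArg natDegree h1
      rw [natDegree_mul hu hu, natDegree_mul (mul_ne_zero hf0 hv) hv, natDegree_mul hf0 hv,
        hfdeg] at h2
      omega
  obtain ⟨p, hp⟩ := (IsPrincipalIdealRing.principal K).principal
  have hpK : ∀ q : ℚ[X], q ∈ K ↔ p ∣ q := by
    intro q
    rw [hp]
    exact Ideal.mem_span_singleton
  have hp0 : p ≠ 0 := by
    rintro rfl
    apply hKne
    rw [hp]
    simp
  have hpJ : (⟨p, 0⟩ : RR) ∈ J := (hK p).mp ((hpK p).mpr dvd_rfl)
  have hDp := hD _ hpJ
  have h1 : p ∣ 2 * (X ^ 3 - C 2) * derivative p := by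
    rw [← hpK, hK]
    have h2 : (⟨2 * (X ^ 3 - C 2) * derivative p, 0⟩ : RR) = (⟨0, 1⟩ : RR) * D ⟨p, 0⟩ := by
      ext1
      · rw [QuadraticAlgebra.re_mul, D]; ring
      · rw [QuadraticAlgebra.im_mul, D]
        simp only [derivative_zero]
        ring
    rw [h2]
    exact J.mul_mem_left _ hDp
  have h2 : p ∣ 2 * (3 * X ^ 2) * derivative p
      + 4 * (X ^ 3 - C 2) * derivative (derivative p) := by
    rw [← hpK, hK]
    have h2 : (⟨2 * (3 * X ^ 2) * derivative p
      + 4 * (X ^ 3 - C 2) * derivative (derivative p), 0⟩ : RR) = D (D ⟨p, 0⟩) := by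
      have hC2 : (2 : ℚ[X]) = C 2 := rfl
      ext1
      · simp only [D, derivative_mul]
        rw [hC2, derivative_C, ← hC2]
        ring
      · simp only [D, derivative_zero]
        rw [mul_zero, mul_zero, add_zero, derivative_zero, mul_zero]
    rw [h2]
    exact hD _ hDp
  have hunit := unit_of_dvd hp0 h1 h2
  have h1K : (1 : ℚ[X]) ∈ K := (hpK 1).mpr hunit.dvd
  rw [Ideal.eq_top_iff_one]
  exact (hK 1).mp h1K

lemma one_eq : (12 : RR) = 2 * ⟨X, 0⟩ * D ⟨0, 1⟩ - 3 * ⟨0, 1⟩ * D ⟨X, 0⟩ := by
  have h1 : D ⟨0, 1⟩ = ⟨3 * X ^ 2, 0⟩ := by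
    ext1
    · simp only [D, derivative_one]; ring
    · simp only [D, derivative_zero]; ring
  have h2 : D ⟨X, 0⟩ = ⟨0, 2⟩ := by
    ext1
    · simp only [D, derivative_zero]; ring
    · simp only [D, derivative_X]; ring
  have h12 : (12 : RR) = ⟨12, 0⟩ := rfl
  have h3 : (3 : RR) = ⟨3, 0⟩ := rfl
  have h4 : (2 : RR) = ⟨2, 0⟩ := rfl
  have hC2 : (C 2 : ℚ[X]) = 2 := rfl
  rw [h1, h2, h12, h3, h4]
  ext1
  · simp only [QuadraticAlgebra.re_mul, QuadraticAlgebra.im_mul, QuadraticAlgebra.re_sub, hC2]
    ring
  · simp only [QuadraticAlgebra.re_mul, QuadraticAlgebra.im_mul, QuadraticAlgebra.im_sub]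
    ring

/-- a nonzero Lie ideal is an ideal of the ring -/
lemma ideal_mul (J : Submodule ℚ RR) (hJ : ∀ x ∈ J, ∀ y, w x y ∈ J) (a : RR) (ha : a ∈ J)
    (r : RR) : a * r ∈ J := by
  have h1 : ∀ b c e : RR, 4 * a * D e * w b c ∈ J := by
    intro b c e
    rw [w_quartic]
    exact J.add_mem (J.sub_mem (J.sub_mem (hJ _ (hJ _ ha _) _) (hJ _ (hJ _ ha _) _))
      (hJ _ (hJ _ ha _) _)) (hJ _ (hJ _ ha _) _)
  have h2 : ∀ b e r : RR, 8 * a * D e * D b * r ∈ J := by
    intro b e r
    have h3 : 8 * a * D e * D b * r = 4 * a * D e * w 1 (b * r) - 4 * a * D e * w b r := by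
      rw [w_one, D_mul, w]
      ring
    rw [h3]
    exact J.sub_mem (h1 _ _ _) (h1 _ _ _)
  set α : RR := ⟨X, 0⟩ with hα
  set β : RR := ⟨0, 1⟩ with hβ
  have h4 : (1152 : RR) * (a * r) ∈ J := by
    have h5 : (1152 : RR) * (a * r) = 8 * a * D β * D β * (4 * α ^ 2 * r)
        - 8 * a * D β * D α * (12 * α * β * r) + 8 * a * D α * D α * (9 * β ^ 2 * r) := by
      have h6 := one_eq
      rw [← hα, ← hβ] at h6
      linear_combination (8 * a * r * (12 + (2 * α * D β - 3 * β * D α))) * h6
    rw [h5]
    exact J.add_mem (J.sub_mem (h2 _ _ _) (h2 _ _ _)) (h2 _ _ _)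
  have h8 : a * r = (1152 : ℚ)⁻¹ • ((1152 : RR) * (a * r)) := by
    have h9 : (1152 : RR) * (a * r) = (1152 : ℚ) • (a * r) := by
      rw [Algebra.smul_def]
      rfl
    rw [h9, smul_smul, inv_mul_cancel₀ (by norm_num), one_smul]
  rw [h8]
  exact J.smul_mem _ h4

theorem simple_aux (J : Submodule ℚ RR) (hJ : ∀ x ∈ J, ∀ y, w x y ∈ J) (h0 : J ≠ ⊥) : J = ⊤ := by
  obtain ⟨a, ha, ha0⟩ := Submodule.exists_mem_ne_zero_of_ne_bot h0
  let J' : Ideal RR :=
    { carrier := J
      add_mem' := fun hx hy => J.add_mem hx hy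
      zero_mem' := J.zero_mem
      smul_mem' := by
        intro c x hx
        change c * x ∈ J
        rw [mul_comm]
        exact ideal_mul J hJ x hx c }
  have hJ'0 : J' ≠ ⊥ := by
    intro h
    have h1 : a ∈ J' := ha
    rw [h, Ideal.mem_bot] at h1
    exact ha0 h1
  have hD : ∀ x ∈ J', D x ∈ J' := by
    intro x hx
    have h1 : w x 1 ∈ J := hJ x hx 1
    have h2 : w x 1 = - D x := by
      have h3 := w_one x
      rw [← h3, w, w]
      ring
    rw [h2] at h1
    have h3 := J.neg_mem h1
    rw [neg_neg] at h3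
    exact h3
  have htop := D_simple J' hJ'0 hD
  rw [eq_top_iff]
  intro x _
  have h1 : x ∈ J' := by rw [htop]; trivial
  exact h1

instance simpleLL : LieAlgebra.IsSimple ℚ LL where
  eq_bot_or_eq_top := by
    intro I
    by_cases h : I = ⊥
    · exact Or.inl h
    · right
      have h1 : (show Submodule ℚ RR from I.toSubmodule) ≠ ⊥ := by
        intro h2
        apply h
        rw [← LieSubmodule.toSubmodule_eq_bot]
        exact h2
      have hw : ∀ x ∈ (show Submodule ℚ RR from I.toSubmodule), ∀ y,
          w x y ∈ (show Submodule ℚ RR from I.toSubmodule) := by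
        intro x hx y
        have key : ∀ x y : LL, x ∈ I → ⁅x, y⁆ ∈ I := fun x y hx => lie_mem_left ℚ LL I x y hx
        exact key x y hx
      have h2 := simple_aux _ hw h1
      rw [← LieSubmodule.toSubmodule_eq_top]
      exact h2
  non_abelian := by
    intro h
    have h1 : ∀ x y : LL, ⁅x, y⁆ = 0 := fun x y => trivial_lie_zero LL LL x y
    have h2 : w 1 ⟨X, 0⟩ = 0 := h1 (show LL from (1 : RR)) (show LL from (⟨X, 0⟩ : RR))
    rw [w_one] at h2
    have h3 := congrArg QuadraticAlgebra.im h2
    simp only [D, derivative_X] at h3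
    have h4 : (2 : ℚ[X]) * 1 = 0 := h3
    rw [mul_one] at h4
    have hC2 : (2 : ℚ[X]) = C 2 := rfl
    rw [hC2, C_eq_zero] at h4
    norm_num at h4

theorem pureLL (a : LL) (V : Submodule ℚ LL) (hfd : FiniteDimensional ℚ V)
    (hV : ∀ v ∈ V, ⁅a, v⁆ ∈ V) : ∀ v ∈ V, ⁅a, v⁆ = 0 :=
  pure_aux a V hfd hV

end Pool.Agent.Helper619.EC
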