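import Pool.Agent.Helper619.Bridge

set_option autoImplicit false
set_option linter.unusedSectionVars false

namespace Pool.Agent.Helper619

section Main

variable (F : Type) [Field F] [Algebra PP F] [IsFractionRing PP F]

/-- the variable `z j` -/
noncomputable def zz (j : ℕ) : F := gen F (Idx.z j)
/-- the parameter `a j` -/
noncomputable def aa (j : ℕ) : F := gen F (Idx.a j)
/-- the parameter `b j` -/
noncomputable def bb (j : ℕ) : F := gen F (Idx.b j)

/-- The subfield of elements not depending on `z j` for `j ≥ n`. -/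
noncomputable def Es (n : ℕ) : Subfield F where
  carrier := {x | ∀ j, n ≤ j → dd F j x = 0}
  mul_mem' := by
    intro x y hx hy j hj
    rw [Derivation.leibniz, hx j hj, hy j hj]; simp
  one_mem' := by
    intro j _
    simp
  add_mem' := by
    intro x y hx hy j hj
    rw [map_add, hx j hj, hy j hj, add_zero]
  zero_mem' := by
    intro j _
    simp
  neg_mem' := by
    intro x hx j hj
    rw [map_neg, hx j hj, neg_zero]
  inv_mem' := by
    intro x hx j hj
    rw [Derivation.leibniz_inv, hx j hj, smul_zero]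

variable {F}

lemma mem_Es {n : ℕ} {x : F} : x ∈ Es F n ↔ ∀ j, n ≤ j → dd F j x = 0 := Iff.rfl

lemma Es_mono {n m : ℕ} (h : n ≤ m) : Es F n ≤ Es F m := by
  intro x hx j hj
  exact hx j (le_trans h hj)

lemma zz_mem {j n : ℕ} (h : j < n) : zz F j ∈ Es F n := by
  intro i hi
  rw [zz, dd_gen_z, if_neg (by omega)]

lemma aa_mem (j n : ℕ) : aa F j ∈ Es F n := by
  intro i _
  exact dd_gen_a i j

lemma bb_mem (j n : ℕ) : bb F j ∈ Es F n := by
  intro i _
  exact dd_gen_b i j

lemma dd_mem {n : ℕ} (i : ℕ) {x : F} (hx : x ∈ Es F n) : dd F i x ∈ Es F n := by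
  intro j hj
  rw [dd_comm, hx j hj, map_zero]

lemma exists_mem (x : F) : ∃ n, x ∈ Es F n := dd_finite x

lemma cube_mem [CharP F 3] (x : F) : x ^ 3 ∈ Es F 0 := by
  intro j _
  rw [Derivation.leibniz_pow]
  have h3 : (3 : F) = 0 := three_eq_zero
  simp only [nsmul_eq_mul, smul_eq_mul]
  push_cast
  rw [h3, zero_mul]

lemma gen_ne (i : Idx) : gen F i ≠ 0 := by
  rw [gen, Ne, IsFractionRing.to_map_eq_zero_iff (K := F)]
  exact MvPolynomial.X_ne_zero i

lemma dd_zz_self (j : ℕ) : dd F j (zz F j) = 1 := by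
  rw [zz, dd_gen_z, if_pos rfl]

lemma dd_zz_ne {i j : ℕ} (h : i ≠ j) : dd F j (zz F i) = 0 := by
  rw [zz, dd_gen_z, if_neg h]

/-- product of squares -/
noncomputable def om (F : Type) [Field F] [Algebra PP F] (n : ℕ) : F :=
  ∏ i ∈ Finset.range n, (gen F (Idx.z i)) ^ 2

lemma om_zero : om F 0 = 1 := by simp [om]

lemma om_succ (n : ℕ) : om F (n + 1) = om F n * (zz F n) ^ 2 := by
  rw [om, Finset.prod_range_succ]; rfl

lemma om_mem (n : ℕ) : om F n ∈ Es F n := by
  induction n with
  | zero => rw [om_zero]; exact (Es F 0).one_mem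
  | succ n ih =>
    rw [om_succ]
    exact (Es F (n + 1)).mul_mem (Es_mono (Nat.le_succ n) ih)
      ((Es F (n + 1)).pow_mem (zz_mem (Nat.lt_succ_self n)) 2)

lemma om_ne (n : ℕ) : om F n ≠ 0 := by
  rw [om, Finset.prod_ne_zero_iff]
  intro i _
  exact pow_ne_zero 2 (gen_ne _)

/-- the multiplier `w n = a n + b n * om n` -/
noncomputable def ww (F : Type) [Field F] [Algebra PP F] (n : ℕ) : F :=
  gen F (Idx.a n) + gen F (Idx.b n) * om F n

lemma ww_mem (n : ℕ) : ww F n ∈ Es F n :=
  (Es F n).add_mem (aa_mem n n) ((Es F n).mul_mem (bb_mem n n) (om_mem n))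

/-- the coefficients of the derivation -/
noncomputable def hh (F : Type) [Field F] [Algebra PP F] (n : ℕ) : F :=
  om F n + ww F n * gen F (Idx.z n)

lemma hh_mem (n : ℕ) : hh F n ∈ Es F (n + 1) :=
  (Es F (n + 1)).add_mem (Es_mono (Nat.le_succ n) (om_mem n))
    ((Es F (n + 1)).mul_mem (Es_mono (Nat.le_succ n) (ww_mem n)) (zz_mem (Nat.lt_succ_self n)))

/-- truncated derivation -/
noncomputable def Dn (F : Type) [Field F] [Algebra PP F] [IsFractionRing PP F] :
    ℕ → Derivation ℤ F F
  | 0 => 0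
  | n + 1 => Dn F n + hh F n • dd F n

/-- truncated nilpotent derivation -/
noncomputable def An (F : Type) [Field F] [Algebra PP F] [IsFractionRing PP F] :
    ℕ → Derivation ℤ F F
  | 0 => 0
  | n + 1 => An F n + om F n • dd F n

/-- truncated semisimple part -/
noncomputable def Mn (F : Type) [Field F] [Algebra PP F] [IsFractionRing PP F] :
    ℕ → Derivation ℤ F F
  | 0 => 0
  | n + 1 => Mn F n + (ww F n * gen F (Idx.z n)) • dd F n

lemma Dn_succ (n : ℕ) (x : F) : Dn F (n + 1) x = Dn F n x + hh F n * dd F n x := rfl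
lemma An_succ (n : ℕ) (x : F) : An F (n + 1) x = An F n x + om F n * dd F n x := rfl
lemma Mn_succ (n : ℕ) (x : F) :
    Mn F (n + 1) x = Mn F n x + ww F n * zz F n * dd F n x := rfl

lemma Dn_zero (x : F) : Dn F 0 x = 0 := rfl
lemma An_zero (x : F) : An F 0 x = 0 := rfl
lemma Mn_zero (x : F) : Mn F 0 x = 0 := rfl

lemma Dn_stable {m n : ℕ} (h : m ≤ n) {x : F} (hx : x ∈ Es F m) : Dn F n x = Dn F m x := by
  induction n, h using Nat.le_induction with
  | base => rfl
  | succ n hmn ih => rw [Dn_succ, ih, hx n hmn, mul_zero, add_zero]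

lemma Dn_mem (k n : ℕ) (h : k ≤ n) {x : F} (hx : x ∈ Es F n) : Dn F k x ∈ Es F n := by
  induction k with
  | zero => rw [Dn_zero]; exact (Es F n).zero_mem
  | succ k ih =>
    rw [Dn_succ]
    exact (Es F n).add_mem (ih (by omega))
      ((Es F n).mul_mem (Es_mono h (hh_mem k)) (dd_mem k hx))

lemma An_mem (k n : ℕ) (h : k ≤ n) {x : F} (hx : x ∈ Es F n) : An F k x ∈ Es F n := by
  induction k with
  | zero => rw [An_zero]; exact (Es F n).zero_mem
  | succ k ih =>
    rw [An_succ]
    exact (Es F n).add_mem (ih (by omega))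
      ((Es F n).mul_mem (Es_mono (by omega) (om_mem k)) (dd_mem k hx))

lemma Dn_const (k : ℕ) {c : F} (hc : c ∈ Es F 0) : Dn F k c = 0 := by
  rw [Dn_stable (Nat.zero_le k) hc, Dn_zero]

lemma An_const (k : ℕ) {c : F} (hc : c ∈ Es F 0) : An F k c = 0 := by
  induction k with
  | zero => rfl
  | succ k ih => rw [An_succ, ih, hc k (Nat.zero_le k), mul_zero, add_zero]

lemma Mn_const (k : ℕ) {c : F} (hc : c ∈ Es F 0) : Mn F k c = 0 := by
  induction k with
  | zero => rfl
  | succ k ih => rw [Mn_succ, ih, hc k (Nat.zero_le k), mul_zero, add_zero]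

/-- decomposition of `E (n+1)` over `E n` -/
lemma decomp [CharP F 3] (n : ℕ) {x : F} (hx : x ∈ Es F (n + 1)) :
    ∃ x0 ∈ Es F n, ∃ x1 ∈ Es F n, ∃ x2 ∈ Es F n, x = x0 + x1 * zz F n + x2 * (zz F n) ^ 2 := by
  have h3 : (3 : F) = 0 := three_eq_zero
  set d := dd F n with hd
  set z := zz F n with hz
  have hdz : d z = 1 := dd_zz_self n
  have hd3 : d (d (d x)) = 0 := dd_cube n x
  have hdx := dd_mem n hx
  have hddx := dd_mem n hdx
  have hzm : z ∈ Es F (n + 1) := zz_mem (Nat.lt_succ_self n)
  have key : ∀ y ∈ Es F (n + 1), d y = 0 → y ∈ Es F n := by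
    intro y hy hdy j hj
    rcases Nat.eq_or_lt_of_le hj with h | h
    · rw [← h]; exact hdy
    · exact hy j h
  refine ⟨x - z * d x - z ^ 2 * d (d x), ?_, d x - z * d (d x), ?_, -d (d x), ?_, ?_⟩
  · apply key
    · exact (Es F (n + 1)).sub_mem ((Es F (n + 1)).sub_mem hx ((Es F (n + 1)).mul_mem hzm hdx))
        ((Es F (n + 1)).mul_mem ((Es F (n + 1)).pow_mem hzm 2) hddx)
    · simp only [map_sub, Derivation.leibniz, Derivation.leibniz_pow, smul_eq_mul, hdz, hd3,
        nsmul_eq_mul]
      push_cast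
      linear_combination (-(z * d (d x))) * h3
  · apply key
    · exact (Es F (n + 1)).sub_mem hdx ((Es F (n + 1)).mul_mem hzm hddx)
    · simp only [map_sub, Derivation.leibniz, smul_eq_mul, hdz, hd3]
      ring
  · apply key
    · exact (Es F (n + 1)).neg_mem hddx
    · rw [map_neg, hd3, neg_zero]
  · linear_combination (z ^ 2 * d (d x)) * h3

/-- the cube of a derivation -/
noncomputable def cubeDer [CharP F 3] (δ : Derivation ℤ F F) : Derivation ℤ F F :=
  Derivation.mk' (δ.toLinearMap ∘ₗ δ.toLinearMap ∘ₗ δ.toLinearMap) (by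
    intro x y
    exact cube_leibniz δ x y)

lemma cubeDer_apply [CharP F 3] (δ : Derivation ℤ F F) (x : F) :
    cubeDer δ x = δ (δ (δ x)) := rfl

/-- iterated cubes -/
noncomputable def itD [CharP F 3] (δ : Derivation ℤ F F) : ℕ → Derivation ℤ F F
  | 0 => δ
  | n + 1 => cubeDer (itD δ n)

lemma itD_apply [CharP F 3] (δ : Derivation ℤ F F) (n : ℕ) (x : F) :
    itD δ n x = δ^[3 ^ n] x := by
  induction n generalizing x with
  | zero => rfl
  | succ n ih =>
    rw [pow_succ, Function.iterate_mul]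
    change itD δ n (itD δ n (itD δ n x)) = _
    rw [ih, ih, ih]
    rfl

/-- The three facts about the nilpotent derivation. -/
lemma An_facts [CharP F 3] (n : ℕ) :
    (∀ x ∈ Es F n, (An F n)^[3 ^ n] x = 0) ∧
    (∀ x ∈ Es F n, An F n x = 0 → x ∈ Es F 0) ∧
    ((An F n)^[3 ^ n - 1] (om F n) ∈ Es F 0 ∧ (An F n)^[3 ^ n - 1] (om F n) ≠ 0) := by
  induction n with
  | zero =>
    refine ⟨?_, ?_, ?_, ?_⟩
    · intro x _; rfl
    · intro x hx _; exact hx
    · rw [om_zero]; exact (Es F 0).one_mem
    · rw [om_zero]; exact one_ne_zero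
  | succ n ih =>
    obtain ⟨h1, h2, h3C, h3ne⟩ := ih
    set c := (An F n)^[3 ^ n - 1] (om F n) with hc
    set B := An F (n + 1) with hB
    have hBn : ∀ x ∈ Es F n, B x = An F n x := by
      intro x hx
      rw [hB, An_succ, hx n le_rfl, mul_zero, add_zero]
    have hBk : ∀ k, ∀ x ∈ Es F n, B^[k] x = (An F n)^[k] x := by
      intro k
      induction k with
      | zero => intro x _; rfl
      | succ k ihk =>
        intro x hx
        rw [Function.iterate_succ_apply, Function.iterate_succ_apply, hBn x hx,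
          ihk _ (An_mem n n le_rfl hx)]
    have hAz : An F n (zz F n) = 0 := by
      have : ∀ k ≤ n, An F k (zz F n) = 0 := by
        intro k
        induction k with
        | zero => intro _; rfl
        | succ k ihk =>
          intro hk
          rw [An_succ, ihk (by omega), dd_zz_ne (by omega), mul_zero, add_zero]
      exact this n le_rfl
    have hBz : B (zz F n) = om F n := by
      rw [hB, An_succ, hAz, dd_zz_self]; ring
    have hpos : 0 < 3 ^ n := by positivity
    set Δ := itD B n with hΔ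
    have hΔapp : ∀ x, Δ x = B^[3 ^ n] x := fun x => itD_apply B n x
    have hΔE : ∀ x ∈ Es F n, Δ x = 0 := by
      intro x hx
      rw [hΔapp, hBk _ x hx, h1 x hx]
    have hΔz : Δ (zz F n) = c := by
      rw [hΔapp]
      have : 3 ^ n = (3 ^ n - 1) + 1 := by omega
      rw [this, Function.iterate_succ_apply, hBz, hBk _ _ (om_mem n)]
    have hΔ' : ∀ x ∈ Es F (n + 1), Δ x = c * dd F n x := by
      intro x hx
      obtain ⟨x0, hx0, x1, hx1, x2, hx2, rfl⟩ := decomp n hx
      simp only [map_add, Derivation.leibniz, Derivation.leibniz_pow, smul_eq_mul, nsmul_eq_mul,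
        hΔE x0 hx0, hΔE x1 hx1, hΔE x2 hx2, hΔz, hx0 n le_rfl, hx1 n le_rfl, hx2 n le_rfl,
        dd_zz_self]
      ring
    have hdc : dd F n c = 0 := h3C n (Nat.zero_le n)
    have hBE : ∀ x ∈ Es F (n + 1), B x ∈ Es F (n + 1) := fun x hx => An_mem _ _ le_rfl hx
    have hcE : c ∈ Es F (n + 1) := Es_mono (Nat.zero_le _) h3C
    have hΔΔ : ∀ x ∈ Es F (n + 1), Δ (Δ x) = c * (c * dd F n (dd F n x)) := by
      intro x hx
      rw [hΔ' x hx, hΔ' _ ((Es F (n + 1)).mul_mem hcE (dd_mem n hx)), Derivation.leibniz, hdc]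
      simp
    refine ⟨?_, ?_, ?_⟩
    · intro x hx
      have e : B^[3 ^ (n + 1)] x = Δ (Δ (Δ x)) := by
        rw [← itD_apply]; rfl
      rw [e, hΔΔ _ (by rw [hΔ' x hx]; exact (Es F (n + 1)).mul_mem hcE (dd_mem n hx)),
        hΔ' x hx]
      simp only [Derivation.leibniz, hdc, smul_eq_mul, mul_zero, add_zero, dd_cube]
    · intro x hx hBx
      have h4 : Δ x = 0 := by
        rw [hΔapp]
        have : 3 ^ n = (3 ^ n - 1) + 1 := by omega
        rw [this, Function.iterate_succ_apply, hBx, iter_zero]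
      rw [hΔ' x hx] at h4
      have h5 : dd F n x = 0 := (mul_eq_zero.mp h4).resolve_left h3ne
      have hxn : x ∈ Es F n := by
        intro j hj
        rcases Nat.eq_or_lt_of_le hj with h | h
        · rw [← h]; exact h5
        · exact hx j h
      refine h2 x hxn ?_
      rw [← hBn x hxn, hBx]
    · have e1 : 3 ^ (n + 1) - 1 = (3 ^ n - 1) + (3 ^ n + 3 ^ n) := by
        rw [pow_succ]; omega
      have e2 : B^[3 ^ n + 3 ^ n] (om F (n + 1)) = 2 * (c * c) * om F n := by
        rw [Function.iterate_add_apply, ← hΔapp, ← hΔapp, hΔΔ _ (om_mem (n + 1)), om_succ]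
        have e3 : dd F n (om F n) = 0 := om_mem n n le_rfl
        have e5 : dd F n (om F n * zz F n ^ 2) = om F n * (zz F n + zz F n) := by
          simp only [Derivation.leibniz, Derivation.leibniz_pow, smul_eq_mul, nsmul_eq_mul, e3,
            dd_zz_self]
          push_cast
          ring
        have e6 : dd F n (om F n * (zz F n + zz F n)) = om F n * 2 := by
          simp only [Derivation.leibniz, smul_eq_mul, e3, dd_zz_self, map_add]
          ring
        rw [e5, e6]
        ring
      have h2C : (2 * (c * c)) ∈ Es F 0 := by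
        have : (2 : F) ∈ Es F 0 := by exact_mod_cast natCast_mem (Es F 0) 2
        exact (Es F 0).mul_mem this ((Es F 0).mul_mem h3C h3C)
      have e4 : B^[3 ^ (n + 1) - 1] (om F (n + 1)) = 2 * (c * c) * c := by
        rw [e1, Function.iterate_add_apply, e2, iter_smul B (An_const _ h2C),
          hBk _ _ (om_mem n)]
      rw [e4]
      refine ⟨(Es F 0).mul_mem h2C h3C, ?_⟩
      have h2 : (2 : F) ≠ 0 := by
        intro h2
        have h3 : (3 : F) = 0 := three_eq_zero
        have : (1 : F) = 0 := by linear_combination h3 - h2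
        exact one_ne_zero this
      exact mul_ne_zero (mul_ne_zero h2 (mul_ne_zero h3ne h3ne)) h3ne

end Main

end Pool.Agent.Helper619
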