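import Pool.Agent.Helper619.Steps

set_option autoImplicit false
set_option linter.unusedSectionVars false

namespace Pool.Agent.Helper619

section StepP

variable {F : Type} [Field F] [Algebra PP F] [IsFractionRing PP F] [CharP F 3]

lemma mem_Es_of_dd {n : ℕ} {x : F} (hx : x ∈ Es F (n + 1)) (h : dd F n x = 0) : x ∈ Es F n := by
  intro j hj
  rcases Nat.eq_or_lt_of_le hj with h' | h'
  · rw [← h']; exact h
  · exact hx j h'

/-- The one-step lemma for a subspace of `E (n+1)` closed under the bracket. -/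
theorem stepP (n : ℕ) (V : Submodule (Es F 0) F) (hVE : ∀ x ∈ V, x ∈ Es F (n + 1))
    (hbr : ∀ x ∈ V, ∀ y ∈ V, x * Dn F (n + 1) y - y * Dn F (n + 1) x ∈ V)
    (f g : F) (hf : f ∈ V) (hg : g ∈ V) (hfE : f ∈ Es F n) (hgE : g ∈ Es F n) (hg0 : g ≠ 0)
    (hfg : f / g ∉ Es F 0) (v : F) (hv : v ∈ V) (hvE : v ∉ Es F n) :
    ∀ x ∈ Es F (n + 1), x ∈ V := by
  set φ := emb F (e1 n) with hφ
  have hφC := emb_hφC (F := F) (e1 n) (e1z n)
  have hφC' : ∀ c ∈ Es F 0, φ c ∈ Ce (Es F 0) := fun c hc k => emb_coeff_mem (e1 n) (e1z n) hc k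
  have hcoef : ∀ v ∈ (V : Set F), ∀ k, (φ v).coeff k ∈ Es F (n + 1) :=
    fun v hv k => emb_coeff_mem (e1 n) (e1z n) (hVE v hv) k
  have hD1C : ∀ c ∈ Es F 0, D1 F n c = 0 := by
    intro c hc
    rw [D1_apply, Dn_const n hc, hc n (Nat.zero_le n), mul_zero, add_zero]
  have hthC : ∀ c ∈ Es F 0, th F n c = 0 := by
    intro c hc
    rw [th_apply, hc n (Nat.zero_le n), mul_zero]
  have hDDs : ∀ c ∈ Ce (Es F 0), ∀ x, DD1 F n (c * x) = c * DD1 F n x := by
    intro c hc x
    rw [DD1_apply, DD1_apply, lD_Ce_mul _ hD1C hc, lD_Ce_mul _ hthC hc]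
    ring
  -- the bracket on Laurent series
  have hBr : ∀ x ∈ WW (Es F 0) φ (V : Set F), ∀ y ∈ WW (Es F 0) φ (V : Set F),
      x * DD1 F n y - y * DD1 F n x ∈ WW (Es F 0) φ (V : Set F) := by
    intro x hx y hy
    induction hx using Submodule.span_induction with
    | mem x h =>
      obtain ⟨u, hu, rfl⟩ := h
      induction hy using Submodule.span_induction with
      | mem y h =>
        obtain ⟨w, hw, rfl⟩ := h
        rw [← emb1_main, ← emb1_main]
        change φ u * φ _ - φ w * φ _ ∈ _
        rw [← map_mul, ← map_mul, ← map_sub]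
        exact WW_of_mem (hbr u hu w hw)
      | zero => simp only [map_zero, mul_zero, zero_mul, sub_zero]; exact Submodule.zero_mem _
      | add y z _ _ hy hz =>
        have := Submodule.add_mem _ hy hz
        rw [map_add]
        convert this using 1
        ring
      | smul c y _ hy =>
        have h1 : DD1 F n (c • y) = (c : HahnSeries ℤ F) * DD1 F n y := hDDs _ c.2 y
        rw [h1]
        have := WW_smul c.2 hy
        convert this using 1
        change φ u * ((c : HahnSeries ℤ F) * DD1 F n y)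
          - ((c : HahnSeries ℤ F) * y) * DD1 F n (φ u) = _
        ring
    | zero => simp only [map_zero, mul_zero, zero_mul, sub_zero]; exact Submodule.zero_mem _
    | add x z _ _ hx hz =>
      have := Submodule.add_mem _ hx hz
      rw [map_add]
      convert this using 1
      ring
    | smul c x _ hx =>
      have h1 : DD1 F n (c • x) = (c : HahnSeries ℤ F) * DD1 F n x := hDDs _ c.2 x
      rw [h1]
      have := WW_smul c.2 hx
      convert this using 1
      change ((c : HahnSeries ℤ F) * x) * DD1 F n y - y * ((c : HahnSeries ℤ F) * DD1 F n x) = _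
      ring
  -- reductions of elements in `E n`
  obtain ⟨x0, y0, hx0, hy0, hy0ne, hxy⟩ := exists_nonconst (C := Es F 0) (φ := φ) hφC f g hg0 hfg
  have hx0E : ∀ k, PowerSeries.coeff k x0 ∈ Es F n := by
    intro k
    rw [← toL_coeff_nat]
    refine WW_coeff (Es F n) (Es_mono (Nat.zero_le n)) ?_ hx0 _
    intro w hw k
    rcases hw with rfl | hw
    · exact emb_coeff_mem (e1 n) (e1z n) hfE k
    · rw [Set.mem_singleton_iff.mp hw]; exact emb_coeff_mem (e1 n) (e1z n) hgE k
  have hy0E : ∀ k, PowerSeries.coeff k y0 ∈ Es F n := by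
    intro k
    rw [← toL_coeff_nat]
    refine WW_coeff (Es F n) (Es_mono (Nat.zero_le n)) ?_ hy0 _
    intro w hw k
    rw [Set.mem_singleton_iff.mp hw]; exact emb_coeff_mem (e1 n) (e1z n) hgE k
  have hx0V : x0 ∈ PSV (Es F 0) φ (V : Set F) := by
    refine (Submodule.span_mono (Set.image_mono ?_)) hx0
    intro w hw
    rcases hw with rfl | hw
    · exact hf
    · rw [Set.mem_singleton_iff.mp hw]; exact hg
  have hy0V : y0 ∈ PSV (Es F 0) φ (V : Set F) := by
    refine (Submodule.span_mono (Set.image_mono ?_)) hy0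
    intro w hw
    rw [Set.mem_singleton_iff.mp hw]; exact hg
  -- an element not killed by `θ`
  have hzne : zz F n ≠ 0 := gen_ne _
  have hvth : th F n v ≠ 0 := by
    rw [th_apply]
    refine mul_ne_zero hzne fun h0 => hvE (mem_Es_of_dd (hVE v hv) h0)
  have hthφ : lD (th F n) (φ v) = φ (th F n v) := by
    rw [th, lD_smul, ← emb_dd _ (e1z n)]
    change _ = φ (zz F n * dd F n v)
    rw [map_mul, hφ, zz, emb_gen, e1z]
  obtain ⟨k, hk⟩ : ∃ k, th F n ((φ v).coeff k) ≠ 0 := by
    by_contra hcon
    push Not at hcon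
    have : φ (th F n v) = 0 := by
      rw [← hthφ]
      ext k
      rw [lD_coeff, hcon k]
      rfl
    exact hvth ((map_eq_zero _).mp this)
  obtain ⟨b, hbV, m, hbm⟩ : ∃ b ∈ PSV (Es F 0) φ (V : Set F), ∃ m : ℕ,
      th F n (PowerSeries.coeff m b) ≠ 0 := by
    set o := (φ v).order with ho
    have ho1 : ∀ l < o, (φ v).coeff l = 0 := fun l hl => HahnSeries.coeff_eq_zero_of_lt_order hl
    have hs1 : ∀ l < -o, (HahnSeries.single (-o) (1 : F)).coeff l = 0 := fun l hl =>
      HahnSeries.coeff_single_of_ne (ne_of_lt hl)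
    obtain ⟨h1, _⟩ := coeff_mul_low _ _ (-o) o hs1 ho1
    rw [neg_add_cancel] at h1
    obtain ⟨b, hb⟩ := exists_toL _ h1
    have hko : o ≤ k := by
      by_contra hlt
      rw [ho1 k (not_le.mp hlt), map_zero] at hk
      exact hk rfl
    obtain ⟨m, hm⟩ := Int.eq_ofNat_of_zero_le (sub_nonneg.mpr hko)
    refine ⟨b, ?_, m, ?_⟩
    · rw [mem_PSV, hb]
      exact WW_smul (single_mem_Ce _ (Es F 0).one_mem) (WW_of_mem hv)
    · rw [← toL_coeff_nat, hb, ← hm]
      have : (HahnSeries.single (-o) (1 : F) * φ v).coeff (k - o) = (φ v).coeff k := by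
        have h2 := HahnSeries.coeff_single_mul_add (r := (1 : F)) (x := φ v) (a := k) (b := -o)
        rw [one_mul] at h2
        rw [← h2]
        congr 1
      rw [this]
      exact hk
  -- the data
  let S : PData F :=
    { C := Es F 0
      E := Es F n
      E' := Es F (n + 1)
      D := D1 F n
      θ := th F n
      w := ww F n
      V := PSV (Es F 0) φ (V : Set F)
      f := y0
      hCE := Es_mono (Nat.zero_le n)
      hEE' := Es_mono (Nat.le_succ n)
      hθE := by
        intro x hx
        rw [th_apply, hx n le_rfl, mul_zero]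
      hθE' := by
        intro x hx
        rw [th_apply]
        exact (Es F (n + 1)).mul_mem (zz_mem (Nat.lt_succ_self n)) (dd_mem n hx)
      hker := by
        intro x hx h
        rw [th_apply] at h
        exact mem_Es_of_dd hx ((mul_eq_zero.mp h).resolve_left hzne)
      hθ3 := by
        intro x _
        have h3 : (3 : F) = 0 := three_eq_zero
        simp only [th_apply, Derivation.leibniz, smul_eq_mul, dd_zz_self, dd_cube, map_add,
          Derivation.map_one_eq_zero]
        linear_combination (zz F n * zz F n * dd F n (dd F n x)) * h3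
      hDE := by
        intro x hx
        rw [D1_apply, hx n le_rfl, mul_zero, add_zero]
        exact Dn_mem n n le_rfl hx
      hcube := cube_mem
      hconst := by
        intro x hx h
        rw [D1_apply, hx n le_rfl, mul_zero, add_zero] at h
        exact const_Dn n x hx h
      hwE := ww_mem n
      hw0 := ww_ne n
      hVC := PSV_C
      hsat := PSV_sat
      hVE' := fun x hx m => by
        rw [← toL_coeff_nat]
        exact WW_coeff (Es F (n + 1)) (Es_mono (Nat.zero_le _)) hcoef hx _
      hbr := by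
        intro x hx y hy
        have hT : ∀ y : PowerSeries F, toL (Tw (D1 F n) (th F n) (ww F n) y)
            = HahnSeries.single 1 1 * DD1 F n (toL y) := by
          intro y
          rw [Tw, toL_add, toL_mul, toL_mul, toL_X, toL_C, toL_psD, toL_psD, DD1_apply, mul_add,
            ← mul_assoc (HahnSeries.single 1 1), HahnSeries.single_mul_single]
          norm_num
        rw [mem_PSV, toL_sub, toL_mul, toL_mul, hT, hT]
        have h1 := WW_smul (single_mem_Ce 1 (Es F 0).one_mem) (hBr _ hx _ hy)
        convert h1 using 1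
        ring
      hf := hy0V
      hfE := hy0E
      hf0 := hy0ne }
  have hmain := S.main
    (by
      intro U hUC hUE h1 hcl hex
      refine irr n U hUC hUE h1 ?_ hex
      intro u hu
      have h2 := hcl u hu
      have h3 : S.D u = Dn F n u := by
        change D1 F n u = Dn F n u
        rw [D1_apply, hUE u hu n le_rfl, mul_zero, add_zero]
      rw [h3] at h2
      exact h2)
    x0 hx0V
    (by
      have := hx0E 0
      rwa [PowerSeries.coeff_zero_eq_constantCoeff_apply] at this)
    hxy b hbV m hbm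
  have := rank_arg (C := Es F 0) (φ := φ) hφC' V (EsM F (n + 1)) (fun x hx => hVE x hx)
    (fun e he => hmain e he)
  intro x hx
  exact this hx

end StepP

section LieAlg

variable (F : Type) [Field F] [Algebra PP F] [IsFractionRing PP F]

/-- The derivation on the whole field. -/
noncomputable def DD (x : F) : F := Dn F (Classical.choose (exists_mem x)) x

variable {F}

lemma DD_eq {n : ℕ} {x : F} (hx : x ∈ Es F n) : DD F x = Dn F n x := by
  rw [DD]
  set m := Classical.choose (exists_mem x) with hm
  have hxm : x ∈ Es F m := Classical.choose_spec (exists_mem x)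
  rw [← Dn_stable (le_max_left m n) hxm, ← Dn_stable (le_max_right m n) hx]

lemma exists_mem2 (x y : F) : ∃ n, x ∈ Es F n ∧ y ∈ Es F n := by
  obtain ⟨n, hn⟩ := exists_mem x
  obtain ⟨m, hm⟩ := exists_mem y
  exact ⟨max n m, Es_mono (le_max_left _ _) hn, Es_mono (le_max_right _ _) hm⟩

lemma DD_add (x y : F) : DD F (x + y) = DD F x + DD F y := by
  obtain ⟨n, hx, hy⟩ := exists_mem2 x y
  rw [DD_eq ((Es F n).add_mem hx hy), DD_eq hx, DD_eq hy, map_add]

lemma DD_sub (x y : F) : DD F (x - y) = DD F x - DD F y := by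
  obtain ⟨n, hx, hy⟩ := exists_mem2 x y
  rw [DD_eq ((Es F n).sub_mem hx hy), DD_eq hx, DD_eq hy, map_sub]

lemma DD_mul (x y : F) : DD F (x * y) = x * DD F y + y * DD F x := by
  obtain ⟨n, hx, hy⟩ := exists_mem2 x y
  rw [DD_eq ((Es F n).mul_mem hx hy), DD_eq hx, DD_eq hy, Derivation.leibniz]
  rfl

lemma DD_const {c : F} (hc : c ∈ Es F 0) : DD F c = 0 := by
  rw [DD_eq hc, Dn_zero]

/-- The bracket. -/
noncomputable def br (x y : F) : F := x * DD F y - y * DD F x

lemma br_add_left (x y z : F) : br (x + y) z = br x z + br y z := by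
  simp only [br, DD_add]; ring

lemma br_add_right (x y z : F) : br x (y + z) = br x y + br x z := by
  simp only [br, DD_add]; ring

lemma br_self (x : F) : br x x = 0 := by
  simp only [br, sub_self]

lemma br_jacobi (x y z : F) : br x (br y z) = br (br x y) z + br y (br x z) := by
  simp only [br, DD_sub, DD_mul]
  ring

lemma br_smul (t : Es F 0) (x y : F) : br x (t • y) = t • br x y := by
  change br x ((t : F) * y) = (t : F) * br x y
  simp only [br, DD_mul, DD_const t.2]
  ring

/-- The Lie algebra: a copy of the field. -/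
def LL (F : Type) : Type := F

noncomputable instance : AddCommGroup (LL F) := inferInstanceAs (AddCommGroup F)
noncomputable instance : Module (Es F 0) (LL F) := inferInstanceAs (Module (Es F 0) F)

noncomputable instance : Bracket (LL F) (LL F) :=
  ⟨fun x y => br (F := F) x y⟩

noncomputable instance : LieRing (LL F) where
  add_lie x y z := br_add_left (F := F) x y z
  lie_add x y z := br_add_right (F := F) x y z
  lie_self x := br_self (F := F) x
  leibniz_lie x y z := br_jacobi (F := F) x y z

noncomputable instance : LieAlgebra (Es F 0) (LL F) where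
  lie_smul t x y := br_smul (F := F) t x y

/-- Every proper subalgebra is finite dimensional. -/
theorem proper_fd [CharP F 3] (H : LieSubalgebra (Es F 0) (LL F)) (hH : H ≠ ⊤) :
    FiniteDimensional (Es F 0) H := by
  by_contra hfd
  apply hH
  let V : Submodule (Es F 0) F := H.toSubmodule
  have hVfd : ¬ FiniteDimensional (Es F 0) V := hfd
  have hbr : ∀ x ∈ V, ∀ y ∈ V, x * DD F y - y * DD F x ∈ V := by
    intro x hx y hy
    have h1 : (⁅(show LL F from x), (show LL F from y)⁆ : LL F) ∈ H := H.lie_mem hx hy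
    exact h1
  have hnle : ∀ n, ∃ v ∈ V, v ∉ Es F n := by
    intro n
    by_contra hcon
    push Not at hcon
    exact hVfd (Submodule.finiteDimensional_of_le (S₂ := EsM F n) hcon)
  obtain ⟨g, hg, hgE⟩ := hnle 0
  have hg0 : g ≠ 0 := fun h => hgE (h ▸ (Es F 0).zero_mem)
  have hf : ∃ f ∈ V, f / g ∉ Es F 0 := by
    by_contra hcon
    push Not at hcon
    apply hVfd
    have hle : V ≤ Submodule.span (Es F 0) {g} := by
      intro x hx
      rw [Submodule.mem_span_singleton]
      refine ⟨⟨x / g, hcon x hx⟩, ?_⟩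
      change x / g * g = x
      rw [div_mul_cancel₀ x hg0]
    exact Submodule.finiteDimensional_of_le hle
  obtain ⟨f, hf, hfg⟩ := hf
  obtain ⟨n0, hfn, hgn⟩ := exists_mem2 f g
  have key : ∀ m, n0 ≤ m → ∀ x ∈ Es F m, x ∈ V := by
    intro m hm x hx
    obtain ⟨v, hv, hvm⟩ := hnle m
    classical
    have hex := exists_mem v
    obtain ⟨k, hk, hmin⟩ : ∃ k, v ∈ Es F k ∧ ∀ j < k, v ∉ Es F j :=
      ⟨Nat.find hex, Nat.find_spec hex, fun j hj => Nat.find_min hex hj⟩
    have hmk : m < k := by
      by_contra hle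
      exact hvm (Es_mono (not_lt.mp hle) hk)
    obtain ⟨n, rfl⟩ : ∃ n, k = n + 1 := ⟨k - 1, by omega⟩
    have hmn : m ≤ n := by omega
    let V' : Submodule (Es F 0) F := V ⊓ EsM F (n + 1)
    have hV'E : ∀ x ∈ V', x ∈ Es F (n + 1) := fun x hx => hx.2
    have hbr' : ∀ x ∈ V', ∀ y ∈ V', x * Dn F (n + 1) y - y * Dn F (n + 1) x ∈ V' := by
      intro x hx y hy
      have h1 := hbr x hx.1 y hy.1
      rw [DD_eq hx.2, DD_eq hy.2] at h1
      refine ⟨h1, ?_⟩
      exact (Es F (n + 1)).sub_mem ((Es F (n + 1)).mul_mem hx.2 (Dn_mem _ _ le_rfl hy.2))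
        ((Es F (n + 1)).mul_mem hy.2 (Dn_mem _ _ le_rfl hx.2))
    have h := stepP n V' hV'E hbr' f g
      ⟨hf, Es_mono (by omega) hfn⟩ ⟨hg, Es_mono (by omega) hgn⟩
      (Es_mono (by omega) hfn) (Es_mono (by omega) hgn) hg0 hfg v ⟨hv, hk⟩ (hmin n (by omega))
    exact (h x (Es_mono (by omega) hx)).1
  rw [eq_top_iff]
  intro x _
  obtain ⟨k, hk⟩ := exists_mem (F := F) x
  exact key (max k n0) (le_max_right _ _) x (Es_mono (le_max_left _ _) hk)

/-- `Es n` as a Lie subalgebra. -/
noncomputable def EsL (F : Type) [Field F] [Algebra PP F] [IsFractionRing PP F] (n : ℕ) :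
    LieSubalgebra (Es F 0) (LL F) :=
  { (EsM F n : Submodule (Es F 0) F) with
    lie_mem' := by
      intro x y hx hy
      have key : ∀ x y : F, x ∈ Es F n → y ∈ Es F n → br x y ∈ Es F n := by
        intro x y hx' hy'
        rw [br, DD_eq hx', DD_eq hy']
        exact (Es F n).sub_mem ((Es F n).mul_mem hx' (Dn_mem _ _ le_rfl hy'))
          ((Es F n).mul_mem hy' (Dn_mem _ _ le_rfl hx'))
      exact key x y hx hy }

lemma mem_EsL {n : ℕ} {x : F} : (show LL F from x) ∈ EsL F n ↔ x ∈ Es F n := Iff.rfl

lemma EsL_ne_top (n : ℕ) : EsL F n ≠ ⊤ := by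
  intro h
  have h0 : (show LL F from zz F n) ∈ EsL F n := by rw [h]; trivial
  have h1 : zz F n ∈ Es F n := mem_EsL.mp h0
  have h2 : dd F n (zz F n) = 0 := h1 n le_rfl
  rw [dd_zz_self] at h2
  exact one_ne_zero h2

lemma finite_le (s : Set (LL F)) (hs : s.Finite) : ∃ n, ∀ x ∈ s, x ∈ EsL F n := by
  induction s, hs using Set.Finite.induction_on with
  | empty => exact ⟨0, fun x hx => absurd hx (Set.notMem_empty x)⟩
  | @insert a s _ _ ih =>
    obtain ⟨n, hn⟩ := ih
    obtain ⟨m, hm⟩ := exists_mem (F := F) a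
    refine ⟨max n m, fun x hx => ?_⟩
    rcases hx with rfl | hx
    · exact mem_EsL.mpr (Es_mono (le_max_right _ _) hm)
    · exact mem_EsL.mpr (Es_mono (le_max_left _ _) (mem_EsL.mp (hn x hx)))

/-- The Lie algebra is not finitely generated. -/
theorem not_fg : ¬ ∃ s : Set (LL F), s.Finite ∧ LieSubalgebra.lieSpan (Es F 0) (LL F) s = ⊤ := by
  rintro ⟨s, hs, hspan⟩
  obtain ⟨n, hn⟩ := finite_le s hs
  have h : LieSubalgebra.lieSpan (Es F 0) (LL F) s ≤ EsL F n :=
    LieSubalgebra.lieSpan_le.mpr fun x hx => hn x hx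
  rw [hspan] at h
  exact EsL_ne_top n (eq_top_iff.mpr h)

/-- A finite dimensional subalgebra is generated by a finite set. -/
theorem fg_of_fd {K L : Type} [Field K] [LieRing L] [LieAlgebra K L] (H : LieSubalgebra K L)
    (h : FiniteDimensional K H) : ∃ s : Set L, s.Finite ∧ LieSubalgebra.lieSpan K L s = H := by
  have hfg : (H.toSubmodule).FG := Module.Finite.iff_fg.mp h
  obtain ⟨t, ht⟩ := hfg
  refine ⟨(t : Set L), t.finite_toSet, ?_⟩
  apply le_antisymm
  · rw [LieSubalgebra.lieSpan_le]
    intro x hx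
    have : x ∈ H.toSubmodule := by
      rw [← ht]
      exact Submodule.subset_span hx
    exact this
  · intro x hx
    have hx' : x ∈ Submodule.span K (t : Set L) := by
      rw [ht]; exact hx
    have hle : Submodule.span K (t : Set L) ≤ (LieSubalgebra.lieSpan K L (t : Set L)).toSubmodule :=
      Submodule.span_le.mpr LieSubalgebra.subset_lieSpan
    exact hle hx'

end LieAlg

section Concrete

/-- The concrete field. -/
abbrev FF : Type := FractionRing PP

instance : CharP FF 3 :=
  charP_of_injective_algebraMap (IsFractionRing.injective PP FF) 3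

theorem main_not_fg : ¬ ∃ s : Set (LL FF), s.Finite ∧
    LieSubalgebra.lieSpan (Es FF 0) (LL FF) s = ⊤ := not_fg

theorem main_fd (H : LieSubalgebra (Es FF 0) (LL FF)) (hH : H ≠ ⊤) :
    FiniteDimensional (Es FF 0) H := proper_fd H hH

theorem main_infinite : ¬ FiniteDimensional (Es FF 0) (LL FF) := by
  intro h
  apply main_not_fg
  refine fg_of_fd (⊤ : LieSubalgebra (Es FF 0) (LL FF)) ?_
  exact Module.Finite.of_injective
    ((⊤ : LieSubalgebra (Es FF 0) (LL FF)).toSubmodule.subtype) Subtype.val_injective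

end Concrete

end Pool.Agent.Helper619
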