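import Pool.Agent.Helper619.LemmaP

set_option autoImplicit false
set_option linter.unusedSectionVars false

namespace Pool.Agent.Helper619

open PowerSeries

section Iter

variable {F : Type} [Field F]

lemma iter_smul (A : Derivation ℤ F F) {c : F} (hc : A c = 0) (k : ℕ) (x : F) :
    A^[k] (c * x) = c * A^[k] x := by
  induction k generalizing x with
  | zero => rfl
  | succ k ih =>
    rw [Function.iterate_succ_apply, Function.iterate_succ_apply, ← ih, Derivation.leibniz, hc]
    simp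

lemma iter_add (A : Derivation ℤ F F) (k : ℕ) (x y : F) :
    A^[k] (x + y) = A^[k] x + A^[k] y := iterate_map_add A k x y

lemma iter_sub (A : Derivation ℤ F F) (k : ℕ) (x y : F) :
    A^[k] (x - y) = A^[k] x - A^[k] y := iterate_map_sub A k x y

lemma iter_zero (A : Derivation ℤ F F) (k : ℕ) : A^[k] (0 : F) = 0 := iterate_map_zero A k

end Iter

/-- The abstract irreducibility lemma. -/
theorem lemmaI {F : Type} [Field F]
    (C E : Subfield F) (hCE : C ≤ E) (A M : Derivation ℤ F F)
    (hAC : ∀ x ∈ C, A x = 0) (hAE : ∀ x ∈ E, A x ∈ E)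
    (N : ℕ) (hAN : ∀ x ∈ E, A^[N + 1] x = 0)
    (hker : ∀ x ∈ E, A x = 0 → x ∈ C)
    (z0 : F) (hz0E : z0 ∈ E) (hAz0 : A z0 = 1)
    (hAM : A^[N] (M z0) = 0)
    (ω : F) (hAω : A^[N] ω ≠ 0) (hAωC : A^[N] ω ∈ C)
    (a b : F) (ha : a ∈ C) (ha0 : a ≠ 0) (hb : b ∈ C) (hb0 : b ≠ 0)
    (V : AddSubgroup (PowerSeries F))
    (hVC : ∀ c ∈ C, ∀ x ∈ V, PowerSeries.C c * x ∈ V)
    (hsat : ∀ x, X * x ∈ V → x ∈ V)
    (hVE : ∀ x ∈ V, ∀ n, coeff n x ∈ E)
    (h1V : (1 : PowerSeries F) ∈ V)
    (hcl : ∀ x ∈ V, ∀ s, (PowerSeries.C a + X * PowerSeries.C (b * ω)) * s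
      = psD A x + X * psD M x → s ∈ V)
    (u : PowerSeries F) (hu : u ∈ V) (huC : constantCoeff u ∉ C) :
    ∀ e ∈ E, ∃ x ∈ V, constantCoeff x = e := by
  set rd : F → Prop := fun e => ∃ x ∈ V, constantCoeff x = e with hrd
  have rd_add : ∀ x y, rd x → rd y → rd (x + y) := by
    rintro _ _ ⟨x, hx, rfl⟩ ⟨y, hy, rfl⟩
    exact ⟨x + y, V.add_mem hx hy, by simp⟩
  have rd_neg : ∀ x, rd x → rd (-x) := by
    rintro _ ⟨x, hx, rfl⟩
    exact ⟨-x, V.neg_mem hx, by simp⟩
  have rd_sub : ∀ x y, rd x → rd y → rd (x - y) := by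
    intro x y hx hy
    rw [sub_eq_add_neg]; exact rd_add _ _ hx (rd_neg _ hy)
  have rd_smul : ∀ c ∈ C, ∀ x, rd x → rd (c * x) := by
    rintro c hc _ ⟨x, hx, rfl⟩
    exact ⟨PowerSeries.C c * x, hVC c hc x hx, by simp⟩
  have rd_E : ∀ x, rd x → x ∈ E := by
    rintro _ ⟨x, hx, rfl⟩
    have := hVE x hx 0
    rwa [coeff_zero_eq_constantCoeff_apply] at this
  have rd_C : ∀ c ∈ C, rd c := by
    intro c hc
    have := rd_smul c hc 1 ⟨1, h1V, by simp⟩
    rwa [mul_one] at this
  set q : PowerSeries F := PowerSeries.C a + X * PowerSeries.C (b * ω) with hq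
  have hq0 : constantCoeff q = a := by simp [hq]
  have hq1 : coeff 1 q = b * ω := by
    rw [hq, map_add, coeff_one_mul]
    simp
  have hsol : ∀ r : PowerSeries F, ∃ s, q * s = r := by
    intro r
    refine ⟨q⁻¹ * r, ?_⟩
    rw [← mul_assoc, PowerSeries.mul_inv_cancel q (by rw [hq0]; exact ha0), one_mul]
  have rd_A : ∀ x, rd x → rd (A x) := by
    rintro _ ⟨x, hx, rfl⟩
    obtain ⟨s, hs⟩ := hsol (psD A x + X * psD M x)
    have hsV := hcl x hx s hs
    have h := rd_smul a ha _ ⟨s, hsV, rfl⟩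
    have e : a * constantCoeff s = A (constantCoeff x) := by
      have h2 := congrArg constantCoeff hs
      rw [map_mul, hq0] at h2
      rw [h2]
      simp [cc_psD]
    rwa [e] at h
  have rd_iter : ∀ k x, rd x → rd (A^[k] x) := by
    intro k
    induction k with
    | zero => intro x hx; exact hx
    | succ k ih =>
      intro x hx
      rw [Function.iterate_succ_apply]
      exact ih _ (rd_A x hx)
  -- find `z0`
  have hz0 : rd z0 := by
    set u0 := constantCoeff u with hu0
    have hu0rd : rd u0 := ⟨u, hu, rfl⟩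
    have hex : ∃ k, A^[k] u0 ∈ C := ⟨N + 1, by rw [hAN u0 (rd_E _ hu0rd)]; exact C.zero_mem⟩
    classical
    obtain ⟨k, hk, hmin⟩ : ∃ k, A^[k] u0 ∈ C ∧ ∀ m < k, A^[m] u0 ∉ C :=
      ⟨Nat.find hex, Nat.find_spec hex, fun m hm => Nat.find_min hex hm⟩
    cases k with
    | zero => exact absurd hk huC
    | succ m =>
      have hy := hmin m (Nat.lt_succ_self m)
      set y := A^[m] u0 with hydef
      have hyrd : rd y := rd_iter m u0 hu0rd
      have hAy : A^[m + 1] u0 = A y := by rw [Function.iterate_succ_apply']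
      rw [hAy] at hk
      have hAy0 : A y ≠ 0 := fun h0 => hy (hker y (rd_E _ hyrd) h0)
      have h1 : rd ((A y)⁻¹ * y) := rd_smul _ (C.inv_mem hk) _ hyrd
      have h2 : A ((A y)⁻¹ * y - z0) = 0 := by
        rw [map_sub, Derivation.leibniz, hAC _ (C.inv_mem hk), hAz0]
        simp only [smul_eq_mul, mul_zero, add_zero]
        rw [inv_mul_cancel₀ hAy0, sub_self]
      have h3 : (A y)⁻¹ * y - z0 ∈ C := hker _ (E.sub_mem (rd_E _ h1) hz0E) h2
      have h4 := rd_sub _ _ h1 (rd_C _ h3)
      rwa [sub_sub_cancel] at h4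
  -- the key element
  obtain ⟨g, hg, hg0⟩ := hz0
  obtain ⟨s, hs⟩ := hsol (psD A g + X * psD M g)
  have hsV := hcl g hg s hs
  have hs0 : a * constantCoeff s = 1 := by
    have h2 := congrArg constantCoeff hs
    rw [map_mul, hq0] at h2
    rw [h2]
    simp [cc_psD, hg0, hAz0]
  have hs1 : a * coeff 1 s + b * ω * constantCoeff s = A (coeff 1 g) + M z0 := by
    have h2 := congrArg (coeff 1) hs
    rw [coeff_one_mul, hq0, hq1, map_add, coeff_one_mul, coeff_psD, cc_psD, hg0] at h2
    simp only [coeff_one_X, one_mul, constantCoeff_X, mul_zero, add_zero] at h2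
    linear_combination h2
  set t : PowerSeries F := PowerSeries.C a * s - 1 with ht
  have htV : t ∈ V := V.sub_mem (hVC a ha s hsV) h1V
  have ht0 : constantCoeff t = 0 := by
    rw [ht]; simp only [map_sub, map_mul, constantCoeff_C, map_one]; rw [hs0, sub_self]
  obtain ⟨t', ht'⟩ := X_dvd_iff.mpr ht0
  have ht'V : t' ∈ V := hsat t' (by rw [← ht']; exact htV)
  have ht'0 : constantCoeff t' = a * coeff 1 s := by
    have : coeff 1 t = constantCoeff t' := by
      rw [ht', ← zero_add 1, coeff_succ_X_mul, coeff_zero_eq_constantCoeff_apply]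
    rw [← this, ht, map_sub, coeff_C_mul]
    simp [coeff_one]
  set e := constantCoeff t' with he
  have herd : rd e := ⟨t', ht'V, rfl⟩
  have heE : e ∈ E := rd_E _ herd
  have hs0C : constantCoeff s ∈ C := by
    have : constantCoeff s = a⁻¹ := eq_inv_of_mul_eq_one_right hs0
    rw [this]; exact C.inv_mem ha
  have hs0ne : constantCoeff s ≠ 0 := by
    intro h0
    rw [h0, mul_zero] at hs0
    exact zero_ne_one hs0
  have hce : A^[N] e = -(b * constantCoeff s) * A^[N] ω := by
    have h2 : e = A (coeff 1 g) + M z0 - (b * constantCoeff s) * ω := by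
      rw [ht'0]; linear_combination hs1
    rw [h2, iter_sub, iter_add, iter_smul A (hAC _ (C.mul_mem hb hs0C)), hAM,
      ← Function.iterate_succ_apply, hAN _ (hVE g hg 1)]
    ring
  set c0 := A^[N] e with hc0
  have hc0ne : c0 ≠ 0 := by
    rw [hce]
    exact mul_ne_zero (neg_ne_zero.mpr (mul_ne_zero hb0 hs0ne)) hAω
  have hc0C : c0 ∈ C := by
    rw [hce]
    exact C.mul_mem (C.neg_mem (C.mul_mem hb hs0C)) hAωC
  -- everything is reached
  have hAEk : ∀ k x, x ∈ E → A^[k] x ∈ E := by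
    intro k
    induction k with
    | zero => intro x hx; exact hx
    | succ k ih =>
      intro x hx
      rw [Function.iterate_succ_apply]
      exact ih _ (hAE x hx)
  have hfin : ∀ k, k ≤ N + 1 → ∀ x ∈ E, A^[k] x = 0 → rd x := by
    intro k
    induction k with
    | zero =>
      intro _ x _ hx
      have : x = 0 := hx
      rw [this]; exact rd_C 0 C.zero_mem
    | succ k ih =>
      intro hk x hx hxk
      rw [Function.iterate_succ_apply'] at hxk
      have hc : A^[k] x ∈ C := hker _ (hAEk k x hx) hxk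
      have h1 : A^[k] (A^[N - k] e) = c0 := by
        rw [← Function.iterate_add_apply, show k + (N - k) = N by omega]
      have hcc : A^[k] x / c0 ∈ C := C.div_mem hc hc0C
      have h2 : A^[k] (x - A^[k] x / c0 * A^[N - k] e) = 0 := by
        rw [iter_sub, iter_smul A (hAC _ hcc), h1]
        field_simp
        ring
      have h3 : x - A^[k] x / c0 * A^[N - k] e ∈ E :=
        E.sub_mem hx (E.mul_mem (hCE hcc) (hAEk _ e heE))
      have h4 := ih (by omega) _ h3 h2
      have h5 := rd_add _ _ h4 (rd_smul _ hcc _ (rd_iter (N - k) e herd))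
      rwa [sub_add_cancel] at h5
  intro x hx
  exact hfin (N + 1) le_rfl x hx (hAN x hx)

end Pool.Agent.Helper619
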