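import Pool.Agent.Helper619.Model

set_option autoImplicit false
set_option linter.unusedSectionVars false

namespace Pool.Agent.Helper619

open PowerSeries

/-- A derivation acting coefficientwise on power series. -/
noncomputable def psD {F : Type} [Field F] (δ : Derivation ℤ F F) (x : PowerSeries F) :
    PowerSeries F :=
  PowerSeries.mk fun n => δ (PowerSeries.coeff n x)

lemma coeff_psD {F : Type} [Field F] (δ : Derivation ℤ F F) (x : PowerSeries F) (n : ℕ) :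
    coeff n (psD δ x) = δ (coeff n x) := by
  rw [psD, coeff_mk]

lemma cc_psD {F : Type} [Field F] (δ : Derivation ℤ F F) (x : PowerSeries F) :
    constantCoeff (psD δ x) = δ (constantCoeff x) := by
  rw [← coeff_zero_eq_constantCoeff_apply, coeff_psD, coeff_zero_eq_constantCoeff_apply]

/-- The operator `X D + w θ` on power series. -/
noncomputable def Tw {F : Type} [Field F] (D θ : Derivation ℤ F F) (w : F)
    (y : PowerSeries F) : PowerSeries F :=
  X * psD D y + C w * psD θ y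

lemma Tw_c0 {F : Type} [Field F] (D θ : Derivation ℤ F F) (w : F) (y : PowerSeries F) :
    constantCoeff (Tw D θ w y) = w * θ (constantCoeff y) := by
  simp [Tw, cc_psD]

lemma Tw_succ {F : Type} [Field F] (D θ : Derivation ℤ F F) (w : F) (y : PowerSeries F) (n : ℕ) :
    coeff (n + 1) (Tw D θ w y) = D (coeff n y) + w * θ (coeff (n + 1) y) := by
  simp [Tw, coeff_psD, coeff_succ_X_mul]

lemma Tw_c1 {F : Type} [Field F] (D θ : Derivation ℤ F F) (w : F) (y : PowerSeries F) :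
    coeff 1 (Tw D θ w y) = D (constantCoeff y) + w * θ (coeff 1 y) := by
  have := Tw_succ D θ w y 0
  simpa using this

lemma three_eq_zero {F : Type} [Field F] [CharP F 3] : (3 : F) = 0 := by
  have := CharP.cast_eq_zero F 3
  exact_mod_cast this

/-- Data for the one-step extension lemma. -/
structure PData (F : Type) [Field F] where
  C : Subfield F
  E : Subfield F
  E' : Subfield F
  D : Derivation ℤ F F
  θ : Derivation ℤ F F
  w : F
  V : AddSubgroup (PowerSeries F)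
  f : PowerSeries F
  hCE : C ≤ E
  hEE' : E ≤ E'
  hθE : ∀ x ∈ E, θ x = 0
  hθE' : ∀ x ∈ E', θ x ∈ E'
  hker : ∀ x ∈ E', θ x = 0 → x ∈ E
  hθ3 : ∀ x ∈ E', θ (θ (θ x)) = θ x
  hDE : ∀ x ∈ E, D x ∈ E
  hcube : ∀ x : F, x ^ 3 ∈ C
  hconst : ∀ x ∈ E, D x = 0 → x ∈ C
  hwE : w ∈ E
  hw0 : w ≠ 0
  hVC : ∀ c ∈ C, ∀ x ∈ V, PowerSeries.C c * x ∈ V
  hsat : ∀ x, X * x ∈ V → x ∈ V
  hVE' : ∀ x ∈ V, ∀ n, coeff n x ∈ E'
  hbr : ∀ x ∈ V, ∀ y ∈ V, x * Tw D θ w y - y * Tw D θ w x ∈ V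
  hf : f ∈ V
  hfE : ∀ n, coeff n f ∈ E
  hf0 : constantCoeff f ≠ 0

namespace PData

variable {F : Type} [Field F] [CharP F 3] (S : PData F)

/-- reductions -/
def rd (a : F) : Prop := ∃ x ∈ S.V, constantCoeff x = a

/-- leading coefficient of `f` -/
noncomputable def f0 : F := constantCoeff S.f

lemma f0_ne : S.f0 ≠ 0 := S.hf0

lemma f0_E : S.f0 ∈ S.E := by
  have := S.hfE 0
  rwa [coeff_zero_eq_constantCoeff_apply] at this

lemma rd_f0 : S.rd S.f0 := ⟨S.f, S.hf, rfl⟩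

lemma rd_zero : S.rd 0 := ⟨0, S.V.zero_mem, by simp⟩

lemma rd_add {a b : F} (ha : S.rd a) (hb : S.rd b) : S.rd (a + b) := by
  obtain ⟨x, hx, rfl⟩ := ha
  obtain ⟨y, hy, rfl⟩ := hb
  exact ⟨x + y, S.V.add_mem hx hy, by simp⟩

lemma rd_neg {a : F} (ha : S.rd a) : S.rd (-a) := by
  obtain ⟨x, hx, rfl⟩ := ha
  exact ⟨-x, S.V.neg_mem hx, by simp⟩

lemma rd_sub {a b : F} (ha : S.rd a) (hb : S.rd b) : S.rd (a - b) := by
  rw [sub_eq_add_neg]
  exact S.rd_add ha (S.rd_neg hb)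

lemma rd_smul {c a : F} (hc : c ∈ S.C) (ha : S.rd a) : S.rd (c * a) := by
  obtain ⟨x, hx, rfl⟩ := ha
  exact ⟨PowerSeries.C c * x, S.hVC c hc x hx, by simp⟩

lemma rd_E' {a : F} (ha : S.rd a) : a ∈ S.E' := by
  obtain ⟨x, hx, rfl⟩ := ha
  have := S.hVE' x hx 0
  rwa [coeff_zero_eq_constantCoeff_apply] at this

lemma rd_br {a b : F} (ha : S.rd a) (hb : S.rd b) : S.rd (S.w * (a * S.θ b - b * S.θ a)) := by
  obtain ⟨x, hx, rfl⟩ := ha
  obtain ⟨y, hy, rfl⟩ := hb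
  refine ⟨_, S.hbr x hx y hy, ?_⟩
  simp only [map_sub, map_mul, Tw_c0]
  ring

lemma θf0 : S.θ S.f0 = 0 := S.hθE _ S.f0_E

lemma θw : S.θ S.w = 0 := S.hθE _ S.hwE

/-- the multiplier `ξ` -/
noncomputable def ξ : F := S.w * S.f0

lemma ξ_ne : S.ξ ≠ 0 := mul_ne_zero S.hw0 S.f0_ne

lemma ξ_E : S.ξ ∈ S.E := S.E.mul_mem S.hwE S.f0_E

lemma θξ : S.θ S.ξ = 0 := S.hθE _ S.ξ_E

lemma rd_ξθ {a : F} (ha : S.rd a) : S.rd (S.ξ * S.θ a) := by
  have h := S.rd_br S.rd_f0 ha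
  rw [S.θf0, mul_zero, sub_zero, ← mul_assoc] at h
  exact h

lemma θ_ξ_mul (a : F) : S.θ (S.ξ * a) = S.ξ * S.θ a := by
  rw [Derivation.leibniz, S.θξ]; simp

lemma rd_θ {a : F} (ha : S.rd a) : S.rd (S.θ a) := by
  have h := S.rd_ξθ (S.rd_ξθ (S.rd_ξθ ha))
  rw [S.θ_ξ_mul, S.θ_ξ_mul, S.θ_ξ_mul, S.hθ3 a (S.rd_E' ha)] at h
  have h2 : (S.ξ ^ 3)⁻¹ ∈ S.C := S.C.inv_mem (S.hcube _)
  have h3 := S.rd_smul h2 h
  have h4 : (S.ξ ^ 3)⁻¹ * (S.ξ * (S.ξ * (S.ξ * S.θ a))) = S.θ a := by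
    have := S.ξ_ne
    field_simp
  rwa [h4] at h3

lemma three : (3 : F) = 0 := three_eq_zero

/-- The projection to the kernel of `θ`. -/
lemma rd_P0 {a : F} (ha : S.rd a) : S.rd (a - S.θ (S.θ a)) :=
  S.rd_sub ha (S.rd_θ (S.rd_θ ha))

/-- The projection killing the `i` eigenspace and kernel, where `i = ± 1`. -/
lemma rd_Q {a i : F} (hi : i ∈ S.C) (ha : S.rd a) : S.rd (i * S.θ a - S.θ (S.θ a)) :=
  S.rd_sub (S.rd_smul hi (S.rd_θ ha)) (S.rd_θ (S.rd_θ ha))

/-- Bracketing with `f` on the kernel part. -/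
lemma rd_fD {a : F} (ha : S.rd a) (hθa : S.θ a = 0) :
    S.rd (S.f0 * S.D a - a * S.D S.f0) := by
  obtain ⟨x, hx, rfl⟩ := ha
  set a := constantCoeff x with hadef
  have haE : a ∈ S.E := S.hker a (S.rd_E' ⟨x, hx, rfl⟩) hθa
  have hz := S.hbr S.f S.hf x hx
  set z := S.f * Tw S.D S.θ S.w x - x * Tw S.D S.θ S.w S.f with hzdef
  have hz0 : constantCoeff z = 0 := by
    rw [hzdef]
    simp only [map_sub, map_mul, Tw_c0]
    change S.f0 * (S.w * S.θ a) - a * (S.w * S.θ S.f0) = 0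
    rw [hθa, S.θf0]; ring
  obtain ⟨z', hz'⟩ := X_dvd_iff.mpr hz0
  have hz'V : z' ∈ S.V := S.hsat z' (by rw [← hz']; exact hz)
  have hz'0 : constantCoeff z' = coeff 1 z := by
    rw [hz', ← zero_add 1, coeff_succ_X_mul, coeff_zero_eq_constantCoeff_apply]
  have hz1 : coeff 1 z = S.f0 * S.D a - a * S.D S.f0 + S.w * S.f0 * S.θ (coeff 1 x) := by
    rw [hzdef, map_sub, coeff_one_mul, coeff_one_mul, Tw_c0, Tw_c0, Tw_c1, Tw_c1]
    change coeff 1 S.f * (S.w * S.θ a) + (S.D a + S.w * S.θ (coeff 1 x)) * S.f0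
      - (coeff 1 x * (S.w * S.θ S.f0) + (S.D S.f0 + S.w * S.θ (coeff 1 S.f)) * a) = _
    rw [hθa, S.θf0, S.hθE _ (S.hfE 1)]
    ring
  have hrd : S.rd (coeff 1 z) := ⟨z', hz'V, hz'0⟩
  have hP := S.rd_P0 hrd
  have hcalc : coeff 1 z - S.θ (S.θ (coeff 1 z)) = S.f0 * S.D a - a * S.D S.f0 := by
    rw [hz1]
    have h1 : S.θ (S.f0 * S.D a - a * S.D S.f0) = 0 :=
      S.hθE _ (S.E.sub_mem (S.E.mul_mem S.f0_E (S.hDE _ haE))
        (S.E.mul_mem haE (S.hDE _ S.f0_E)))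
    have h2 : S.θ (S.w * S.f0 * S.θ (coeff 1 x)) = S.w * S.f0 * S.θ (S.θ (coeff 1 x)) :=
      S.θ_ξ_mul _
    have h3 : S.θ (S.w * S.f0 * S.θ (S.θ (coeff 1 x)))
        = S.w * S.f0 * S.θ (S.θ (S.θ (coeff 1 x))) :=
      S.θ_ξ_mul _
    rw [map_add, h1, h2, zero_add, h3, S.hθ3 _ (S.hVE' x hx 1)]
    ring
  rw [hcalc] at hP
  exact hP

/-- The commutator of two elements of the same nonzero degree. -/
lemma rd_same {a u i : F} (hi : i * i = 1) (hiC : i ∈ S.C) (ha : S.rd a) (hθa : S.θ a = i * a)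
    (hu : u ∈ S.E) (hua : S.rd (u * a)) : S.rd (a * a * S.D u) := by
  have h3 : (3 : F) = 0 := three_eq_zero
  obtain ⟨x, hx, hxa⟩ := ha
  obtain ⟨y, hy, hya⟩ := hua
  have hθu : S.θ u = 0 := S.hθE _ hu
  have hθi : S.θ i = 0 := S.hθE _ (S.hCE hiC)
  have hθua : S.θ (u * a) = i * (u * a) := by
    rw [Derivation.leibniz, hθu, hθa]; simp; ring
  have hz := S.hbr x hx y hy
  set z := x * Tw S.D S.θ S.w y - y * Tw S.D S.θ S.w x with hzdef
  have hz0 : constantCoeff z = 0 := by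
    rw [hzdef]
    simp only [map_sub, map_mul, Tw_c0]
    rw [hxa, hya, hθa, hθua]; ring
  obtain ⟨z', hz'⟩ := X_dvd_iff.mpr hz0
  have hz'V : z' ∈ S.V := S.hsat z' (by rw [← hz']; exact hz)
  have hz'0 : constantCoeff z' = coeff 1 z := by
    rw [hz', ← zero_add 1, coeff_succ_X_mul, coeff_zero_eq_constantCoeff_apply]
  have hrd : S.rd (coeff 1 z) := ⟨z', hz'V, hz'0⟩
  have hP := S.rd_Q hiC hrd
  set x1 := coeff 1 x with hx1
  set y1 := coeff 1 y with hy1
  have hx1E : x1 ∈ S.E' := S.hVE' x hx 1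
  have hy1E : y1 ∈ S.E' := S.hVE' y hy 1
  have hz1 : coeff 1 z = a * a * S.D u
      + (S.w * a * (S.θ y1 - i * y1) - S.w * u * a * (S.θ x1 - i * x1)) := by
    rw [hzdef, map_sub, coeff_one_mul, coeff_one_mul, Tw_c0, Tw_c0, Tw_c1, Tw_c1, hxa, hya,
      hθa, hθua, Derivation.leibniz, smul_eq_mul, smul_eq_mul, ← hx1, ← hy1]
    ring
  have key : ∀ c y : F, c ∈ S.E → y ∈ S.E' →
      i * S.θ (c * a * (S.θ y - i * y)) - S.θ (S.θ (c * a * (S.θ y - i * y))) = 0 := by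
    intro c y hc hy
    have hθc : S.θ c = 0 := S.hθE _ hc
    have e1 : S.θ (c * a * (S.θ y - i * y)) = c * a * (S.θ (S.θ y) - y) := by
      simp only [Derivation.leibniz, smul_eq_mul, map_sub, hθc, hθa, hθi]
      linear_combination (-(c * a * y)) * hi
    have e2 : S.θ (c * a * (S.θ (S.θ y) - y)) = c * a * i * (S.θ (S.θ y) - y) := by
      simp only [Derivation.leibniz, smul_eq_mul, map_sub, hθc, hθa, S.hθ3 y hy]
      ring
    rw [e1, e2]; ring
  have hDu : S.θ (S.D u) = 0 := S.hθE _ (S.hDE _ hu)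
  have e3 : S.θ (a * a * S.D u) = 2 * i * (a * a * S.D u) := by
    simp only [Derivation.leibniz, smul_eq_mul, hθa, hDu]
    ring
  have e4 : i * S.θ (a * a * S.D u) - S.θ (S.θ (a * a * S.D u)) = a * a * S.D u := by
    have e5 : S.θ (2 * i * (a * a * S.D u)) = 2 * i * (2 * i * (a * a * S.D u)) := by
      have : (2 : F) ∈ S.E := by exact_mod_cast natCast_mem S.E 2
      rw [Derivation.leibniz, e3, S.hθE (2 * i) (S.E.mul_mem this (S.hCE hiC))]
      simp
    rw [e3, e5]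
    linear_combination (-2 * (a * a * S.D u)) * hi - (a * a * S.D u) * h3
  have hcalc : i * S.θ (coeff 1 z) - S.θ (S.θ (coeff 1 z)) = a * a * S.D u := by
    have k1 := key S.w y1 S.hwE hy1E
    have k2 := key (S.w * u) x1 (S.E.mul_mem S.hwE hu) hx1E
    rw [hz1]
    simp only [map_add, map_sub] at k1 k2 e4 ⊢
    linear_combination e4 + k1 - k2
  rw [hcalc] at hP
  exact hP

/-- If all reductions are killed by `θ` then the whole lattice is. -/
lemma all_θ_zero (h : ∀ a, S.rd a → S.θ a = 0) :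
    ∀ k : ℕ, ∀ x ∈ S.V, ∀ j ≤ k, S.θ (coeff j x) = 0 := by
  intro k
  induction k with
  | zero =>
    intro x hx j hj
    obtain rfl : j = 0 := by omega
    rw [coeff_zero_eq_constantCoeff_apply]
    exact h _ ⟨x, hx, rfl⟩
  | succ k ih =>
    intro x hx j hj
    rcases Nat.lt_or_ge j (k + 1) with hlt | hge
    · exact ih x hx j (by omega)
    obtain rfl : j = k + 1 := by omega
    have hxE : ∀ j ≤ k, coeff j x ∈ S.E := fun j hj =>
      S.hker _ (S.hVE' x hx j) (ih x hx j hj)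
    have hz := S.hbr S.f S.hf x hx
    set z := S.f * Tw S.D S.θ S.w x - x * Tw S.D S.θ S.w S.f with hzdef
    have hθx0 : S.θ (constantCoeff x) = 0 := h _ ⟨x, hx, rfl⟩
    have hθf0 : S.θ (constantCoeff S.f) = 0 := S.θf0
    have hz0 : constantCoeff z = 0 := by
      rw [hzdef]
      simp only [map_sub, map_mul, Tw_c0]
      rw [hθx0, hθf0]; ring
    obtain ⟨z', hz'⟩ := X_dvd_iff.mpr hz0
    have hz'V : z' ∈ S.V := S.hsat z' (by rw [← hz']; exact hz)
    have h1 : S.θ (coeff k z') = 0 := ih z' hz'V k le_rfl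
    have h2 : coeff k z' = coeff (k + 1) z := by
      rw [hz', coeff_succ_X_mul]
    have hTx : ∀ j ≤ k, coeff j (Tw S.D S.θ S.w x) ∈ S.E := by
      intro j hj
      cases j with
      | zero =>
        rw [coeff_zero_eq_constantCoeff_apply, Tw_c0, hθx0, mul_zero]
        exact S.E.zero_mem
      | succ j =>
        rw [Tw_succ, ih x hx (j + 1) hj, mul_zero, add_zero]
        exact S.hDE _ (hxE j (by omega))
    have hTf : ∀ j, coeff (j + 1) (Tw S.D S.θ S.w S.f) ∈ S.E := by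
      intro j
      rw [Tw_succ, S.hθE _ (S.hfE (j + 1)), mul_zero, add_zero]
      exact S.hDE _ (S.hfE j)
    have h3 : coeff (k + 1) (S.f * Tw S.D S.θ S.w x)
        = S.f0 * coeff (k + 1) (Tw S.D S.θ S.w x)
          + ∑ p ∈ Finset.HasAntidiagonal.antidiagonal k, coeff (p.1 + 1) S.f * coeff p.2 (Tw S.D S.θ S.w x) := by
      rw [coeff_mul, Finset.Nat.sum_antidiagonal_succ]
      simp only [coeff_zero_eq_constantCoeff_apply]
      rfl
    have h4 : ∑ p ∈ Finset.HasAntidiagonal.antidiagonal k,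
        coeff (p.1 + 1) S.f * coeff p.2 (Tw S.D S.θ S.w x) ∈ S.E := by
      refine S.E.sum_mem fun p hp => S.E.mul_mem (S.hfE _) (hTx _ ?_)
      rw [Finset.HasAntidiagonal.mem_antidiagonal] at hp
      omega
    have h5 : coeff (k + 1) (x * Tw S.D S.θ S.w S.f)
        = coeff (k + 1) x * constantCoeff (Tw S.D S.θ S.w S.f)
          + ∑ p ∈ Finset.HasAntidiagonal.antidiagonal k, coeff p.1 x * coeff (p.2 + 1) (Tw S.D S.θ S.w S.f) := by
      rw [coeff_mul, Finset.Nat.sum_antidiagonal_succ']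
      simp only [coeff_zero_eq_constantCoeff_apply]
    have h6 : ∑ p ∈ Finset.HasAntidiagonal.antidiagonal k,
        coeff p.1 x * coeff (p.2 + 1) (Tw S.D S.θ S.w S.f) ∈ S.E := by
      refine S.E.sum_mem fun p hp => S.E.mul_mem (hxE _ ?_) (hTf _)
      rw [Finset.HasAntidiagonal.mem_antidiagonal] at hp
      omega
    rw [h2, hzdef, map_sub, h3, h5, Tw_c0, hθf0, mul_zero, mul_zero, zero_add, Tw_succ] at h1
    have h7 : S.θ (S.f0 * (S.D (coeff k x) + S.w * S.θ (coeff (k + 1) x)))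
        = S.ξ * S.θ (S.θ (coeff (k + 1) x)) := by
      have e1 : S.f0 * (S.D (coeff k x) + S.w * S.θ (coeff (k + 1) x))
          = S.f0 * S.D (coeff k x) + S.ξ * S.θ (coeff (k + 1) x) := by
        rw [ξ]; ring
      rw [e1, map_add, S.θ_ξ_mul, S.hθE _ (S.E.mul_mem S.f0_E (S.hDE _ (hxE k le_rfl))), zero_add]
    rw [map_sub, map_add, h7, S.hθE _ h4, S.hθE _ h6, add_zero, sub_zero] at h1
    have h8 : S.θ (S.θ (coeff (k + 1) x)) = 0 := (mul_eq_zero.mp h1).resolve_left S.ξ_ne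
    rw [← S.hθ3 _ (S.hVE' x hx (k + 1)), h8, map_zero]

/-- There is a reduction not killed by `θ`. -/
lemma exists_θ_ne (b : PowerSeries F) (hb : b ∈ S.V) (k : ℕ) (hk : S.θ (coeff k b) ≠ 0) :
    ∃ a, S.rd a ∧ S.θ a ≠ 0 := by
  by_contra hcon
  push Not at hcon
  exact hk (S.all_θ_zero hcon k b hb k le_rfl)

/-- The nonzero graded pieces are both nonzero. -/
lemma exists_eig (b : PowerSeries F) (hb : b ∈ S.V) (k : ℕ) (hk : S.θ (coeff k b) ≠ 0)
    (u : F) (hu : u ∈ S.E) (huC : u ∉ S.C)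
    (hmul : ∀ i a : F, i * i = 1 → i ∈ S.C → S.rd a → S.θ a = i * a → S.rd (u * a))
    (i : F) (hi : i * i = 1) (hiC : i ∈ S.C) :
    ∃ a, S.rd a ∧ S.θ a = i * a ∧ a ≠ 0 := by
  have h3 : (3 : F) = 0 := three_eq_zero
  obtain ⟨a, ha, hθa⟩ := S.exists_θ_ne b hb k hk
  have hθ3 := S.hθ3 a (S.rd_E' ha)
  have hθi : S.θ i = 0 := S.hθE _ (S.hCE hiC)
  have hnegC : -i ∈ S.C := S.C.neg_mem hiC
  -- the two components
  have hQ1 := S.rd_Q hiC ha
  have hQ2 := S.rd_Q hnegC ha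
  have e1 : S.θ (i * S.θ a - S.θ (S.θ a)) = (-i) * (i * S.θ a - S.θ (S.θ a)) := by
    rw [map_sub, Derivation.leibniz, hθi, hθ3]
    simp only [smul_eq_mul, mul_zero, add_zero]
    linear_combination (S.θ a) * hi
  have e2 : S.θ (-i * S.θ a - S.θ (S.θ a)) = i * (-i * S.θ a - S.θ (S.θ a)) := by
    rw [map_sub, Derivation.leibniz, map_neg, hθi, hθ3]
    simp only [smul_eq_mul, neg_zero, mul_zero, add_zero]
    linear_combination (S.θ a) * hi
  by_cases hz : -i * S.θ a - S.θ (S.θ a) = 0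
  · -- then the other component is nonzero; move it
    have hne : i * S.θ a - S.θ (S.θ a) ≠ 0 := by
      intro h0
      have h5 : 2 * i * S.θ a = 0 := by linear_combination h0 - hz
      have hi0 : i ≠ 0 := by
        rintro rfl
        simp at hi
      have h2 : (2 : F) ≠ 0 := by
        intro h2
        have : (1 : F) = 0 := by linear_combination h3 - h2
        exact one_ne_zero this
      rcases mul_eq_zero.mp h5 with h6 | h6
      · rcases mul_eq_zero.mp h6 with h7 | h7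
        · exact h2 h7
        · exact hi0 h7
      · exact hθa h6
    set c := i * S.θ a - S.θ (S.θ a) with hc
    have hni : (-i) * (-i) = 1 := by rw [neg_mul_neg]; exact hi
    have huc := hmul (-i) c hni hnegC hQ1 e1
    have h6 := S.rd_same hni hnegC hQ1 e1 hu huc
    refine ⟨c * c * S.D u, h6, ?_, ?_⟩
    · have hDu : S.θ (S.D u) = 0 := S.hθE _ (S.hDE _ hu)
      simp only [Derivation.leibniz, smul_eq_mul, hDu, e1]
      linear_combination (-i * c * c * S.D u) * h3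
    · have hDu : S.D u ≠ 0 := fun h0 => huC (S.hconst u hu h0)
      exact mul_ne_zero (mul_ne_zero hne hne) hDu
  · exact ⟨_, hQ2, e2, hz⟩

/-- The main conclusion. -/
theorem main
    (hirr : ∀ U : AddSubgroup F, (∀ c ∈ S.C, ∀ u ∈ U, c * u ∈ U) → (∀ u ∈ U, u ∈ S.E) →
      (1 : F) ∈ U → (∀ u ∈ U, S.w⁻¹ * S.D u ∈ U) → (∃ u ∈ U, u ∉ S.C) → ∀ x ∈ S.E, x ∈ U)
    (g : PowerSeries F) (hg : g ∈ S.V) (hgE : constantCoeff g ∈ S.E)
    (hgC : constantCoeff g / S.f0 ∉ S.C)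
    (b : PowerSeries F) (hb : b ∈ S.V) (k : ℕ) (hk : S.θ (coeff k b) ≠ 0) :
    ∀ e ∈ S.E', S.rd e := by
  have h3 : (3 : F) = 0 := three_eq_zero
  have hf0 := S.f0_ne
  -- the multiplier ring
  let R : F → Prop := fun r => r ∈ S.E ∧ ∀ i a : F, i * i = 1 → i ∈ S.C → S.rd a →
    S.θ a = i * a → S.rd (r * a)
  have hRE : ∀ r, R r → r ∈ S.E := fun r hr => hr.1
  have hθr : ∀ r i a : F, r ∈ S.E → S.θ a = i * a → S.θ (r * a) = i * (r * a) := by
    intro r i a hr ha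
    rw [Derivation.leibniz, S.hθE r hr, ha]
    simp only [smul_eq_mul, mul_zero, add_zero]
    ring
  have hRadd : ∀ r s, R r → R s → R (r + s) := by
    intro r s hr hs
    refine ⟨S.E.add_mem hr.1 hs.1, fun i a hi hiC ha hθa => ?_⟩
    rw [add_mul]
    exact S.rd_add (hr.2 i a hi hiC ha hθa) (hs.2 i a hi hiC ha hθa)
  have hRneg : ∀ r, R r → R (-r) := by
    intro r hr
    refine ⟨S.E.neg_mem hr.1, fun i a hi hiC ha hθa => ?_⟩
    rw [neg_mul]
    exact S.rd_neg (hr.2 i a hi hiC ha hθa)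
  have hRmul : ∀ r s, R r → R s → R (r * s) := by
    intro r s hr hs
    refine ⟨S.E.mul_mem hr.1 hs.1, fun i a hi hiC ha hθa => ?_⟩
    rw [mul_assoc]
    exact hr.2 i _ hi hiC (hs.2 i a hi hiC ha hθa) (hθr s i a hs.1 hθa)
  have hRC : ∀ c ∈ S.C, R c := by
    intro c hc
    exact ⟨S.hCE hc, fun i a _ _ ha _ => S.rd_smul hc ha⟩
  have hRinv : ∀ r, R r → R r⁻¹ := by
    intro r hr
    by_cases h0 : r = 0
    · rw [h0, inv_zero]; exact hRC 0 S.C.zero_mem
    · have : r⁻¹ = (r ^ 3)⁻¹ * (r * r) := by field_simp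
      rw [this]
      exact hRmul _ _ (hRC _ (S.C.inv_mem (S.hcube r))) (hRmul _ _ hr hr)
  have hRξ : R S.ξ := by
    refine ⟨S.ξ_E, fun i a hi hiC ha hθa => ?_⟩
    have h := S.rd_smul hiC (S.rd_ξθ ha)
    rw [hθa] at h
    have : i * (S.ξ * (i * a)) = S.ξ * a := by linear_combination (S.ξ * a) * hi
    rwa [this] at h
  -- elements of `U0` lie in `R`
  have hU0R : ∀ u, u ∈ S.E → S.rd (S.f0 * u) → R u := by
    intro u hu hfu
    have h1 : R (S.ξ * u) := by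
      refine ⟨S.E.mul_mem S.ξ_E hu, fun i a hi hiC ha hθa => ?_⟩
      have h := S.rd_smul hiC (S.rd_br hfu ha)
      rw [hθa, S.hθE _ (S.E.mul_mem S.f0_E hu)] at h
      have : i * (S.w * (S.f0 * u * (i * a) - a * 0)) = S.ξ * u * a := by
        rw [ξ]; linear_combination (S.w * S.f0 * u * a) * hi
      rwa [this] at h
    have h2 := hRmul _ _ (hRinv _ hRξ) h1
    rwa [inv_mul_cancel_left₀ S.ξ_ne] at h2
  -- a nonconstant element
  set u : F := constantCoeff g / S.f0 with hudef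
  have huE : u ∈ S.E := S.E.div_mem hgE S.f0_E
  have hfu : S.rd (S.f0 * u) := by
    have : S.f0 * u = constantCoeff g := by rw [hudef]; field_simp
    rw [this]; exact ⟨g, hg, rfl⟩
  have huR : R u := hU0R u huE hfu
  have h1C : (1 : F) ∈ S.C := S.C.one_mem
  have hm1C : (-1 : F) ∈ S.C := S.C.neg_mem h1C
  obtain ⟨a1, ha1, hθa1, ha1ne⟩ := S.exists_eig b hb k hk u huE hgC
    (fun i a hi hiC ha hθa => huR.2 i a hi hiC ha hθa) 1 (by ring) h1C
  obtain ⟨a2, ha2, hθa2, ha2ne⟩ := S.exists_eig b hb k hk u huE hgC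
    (fun i a hi hiC ha hθa => huR.2 i a hi hiC ha hθa) (-1) (by ring) hm1C
  -- products
  have hprod : ∀ r, R r → S.rd (r * (S.w * a1 * a2)) := by
    intro r hr
    have h1 : S.rd (r * a1) := hr.2 1 a1 (by ring) h1C ha1 hθa1
    have h2 := S.rd_br h1 ha2
    have h4 : S.θ (r * a1) = 1 * (r * a1) := hθr r 1 a1 hr.1 hθa1
    rw [h4, hθa2] at h2
    have : S.w * (r * a1 * (-1 * a2) - a2 * (1 * (r * a1))) = r * (S.w * a1 * a2) := by
      linear_combination (-(S.w * r * a1 * a2)) * h3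
    rwa [this] at h2
  have hgE' : S.w * a1 * a2 ∈ S.E := by
    have h1 := S.rd_E' (hprod 1 (hRC 1 h1C))
    rw [one_mul] at h1
    refine S.hker _ h1 ?_
    simp only [Derivation.leibniz, smul_eq_mul, hθa1, hθa2, S.θw]
    ring
  set γ : F := S.f0⁻¹ * (S.w * a1 * a2) with hγ
  have hγE : γ ∈ S.E := S.E.mul_mem (S.E.inv_mem S.f0_E) hgE'
  have hγ0 : γ ≠ 0 := mul_ne_zero (inv_ne_zero hf0)
    (mul_ne_zero (mul_ne_zero S.hw0 ha1ne) ha2ne)
  have hγf : ∀ r, R r → S.rd (S.f0 * (γ * r)) := by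
    intro r hr
    have := hprod r hr
    have e : S.f0 * (γ * r) = r * (S.w * a1 * a2) := by
      rw [hγ]; field_simp
    rwa [e]
  have hγR : R γ := by
    apply hU0R γ hγE
    have := hγf 1 (hRC 1 h1C)
    rwa [mul_one] at this
  have hRU0 : ∀ r, R r → S.rd (S.f0 * r) := by
    intro r hr
    have := hγf (γ⁻¹ * r) (hRmul _ _ (hRinv _ hγR) hr)
    rwa [mul_inv_cancel_left₀ hγ0] at this
  -- stability under the derivation
  have hstab : ∀ r, R r → R (S.w⁻¹ * S.D r) := by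
    intro r hr
    have h1 := S.rd_fD (hRU0 r hr) (S.hθE _ (S.E.mul_mem S.f0_E hr.1))
    have h2 : S.f0 * S.D (S.f0 * r) - S.f0 * r * S.D S.f0 = S.f0 * (S.f0 * S.D r) := by
      rw [Derivation.leibniz]
      simp only [smul_eq_mul]
      ring
    rw [h2] at h1
    have h4 : R (S.f0 * S.D r) := hU0R _ (S.E.mul_mem S.f0_E (S.hDE _ hr.1)) h1
    have h5 := hRmul _ _ (hRinv _ hRξ) h4
    have h6 : S.ξ⁻¹ * (S.f0 * S.D r) = S.w⁻¹ * S.D r := by
      rw [ξ]
      have := S.hw0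
      field_simp
    rwa [h6] at h5
  -- irreducibility
  let U : AddSubgroup F :=
    { carrier := {r | R r}
      zero_mem' := hRC 0 S.C.zero_mem
      add_mem' := fun {r s} hr hs => hRadd r s hr hs
      neg_mem' := fun {r} hr => hRneg r hr }
  have hEU : ∀ x ∈ S.E, R x := by
    intro x hx
    exact hirr U (fun c hc u hu => hRmul _ _ (hRC c hc) hu) (fun u hu => hRE u hu) (hRC 1 h1C)
      hstab ⟨u, huR, hgC⟩ x hx
  have hE0 : ∀ x ∈ S.E, S.rd x := by
    intro x hx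
    have h1 := hRU0 _ (hEU (S.f0⁻¹ * x) (S.E.mul_mem (S.E.inv_mem S.f0_E) hx))
    rwa [mul_inv_cancel_left₀ hf0] at h1
  have hEi : ∀ i a x : F, i * i = 1 → i ∈ S.C → S.rd a → S.θ a = i * a → a ≠ 0 →
      x ∈ S.E' → S.θ x = i * x → S.rd x := by
    intro i a x hi hiC ha hθa ha0 hx hθx
    have haE' := S.rd_E' ha
    have h1 : x / a ∈ S.E := by
      refine S.hker _ (S.E'.div_mem hx haE') ?_
      rw [div_eq_mul_inv, Derivation.leibniz, Derivation.leibniz_inv, hθx, hθa]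
      simp only [smul_eq_mul]
      field_simp
      ring
    have h2 := (hEU _ h1).2 i a hi hiC ha hθa
    rwa [div_mul_cancel₀ x ha0] at h2
  intro e he
  have hθe := S.hθ3 e he
  have hE'1 := S.hθE' e he
  have hE'2 := S.hθE' _ hE'1
  have p0 : S.rd (e - S.θ (S.θ e)) := by
    apply hE0
    refine S.hker _ (S.E'.sub_mem he hE'2) ?_
    rw [map_sub, hθe, sub_self]
  have p1 : S.rd (-(S.θ (S.θ e) + S.θ e)) := by
    refine hEi 1 a1 _ (by ring) h1C ha1 hθa1 ha1ne (S.E'.neg_mem (S.E'.add_mem hE'2 hE'1)) ?_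
    rw [map_neg, map_add, hθe]; ring
  have p2 : S.rd (S.θ e - S.θ (S.θ e)) := by
    refine hEi (-1) a2 _ (by ring) hm1C ha2 hθa2 ha2ne (S.E'.sub_mem hE'1 hE'2) ?_
    rw [map_sub, hθe]; ring
  have h := S.rd_add (S.rd_add p0 p1) p2
  have e1 : e - S.θ (S.θ e) + -(S.θ (S.θ e) + S.θ e) + (S.θ e - S.θ (S.θ e)) = e := by
    linear_combination (-(S.θ (S.θ e))) * h3
  rwa [e1] at h

end PData

end Pool.Agent.Helper619
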