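import Mathlib

set_option autoImplicit false

namespace Pool.Agent.Helper619

open MvPolynomial

section Ext

variable {P : Type} [CommRing P] [IsDomain P] {F : Type} [Field F] [Algebra P F]
  [IsFractionRing P F]

/-- The ring homomorphism to the trivial square zero extension attached to a derivation. -/
noncomputable def toTSZ (d : Derivation ℤ P F) : P →+* TrivSqZeroExt F F where
  toFun p := TrivSqZeroExt.inl (algebraMap P F p) + TrivSqZeroExt.inr (d p)
  map_one' := by
    ext <;> simp
  map_zero' := by
    ext <;> simp
  map_add' x y := by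
    ext <;> simp
  map_mul' x y := by
    ext
    · simp
    · simp only [TrivSqZeroExt.snd_add, TrivSqZeroExt.snd_mul, TrivSqZeroExt.snd_inl,
        TrivSqZeroExt.snd_inr, TrivSqZeroExt.fst_add, TrivSqZeroExt.fst_inl,
        TrivSqZeroExt.fst_inr, Derivation.leibniz, Algebra.smul_def,
        zero_add, add_zero, MulOpposite.smul_eq_mul_unop, MulOpposite.unop_op,
        Algebra.algebraMap_self, RingHom.id_apply]
      ring

lemma toTSZ_unit (d : Derivation ℤ P F) (y : nonZeroDivisors P) : IsUnit (toTSZ d (y : P)) := by
  rw [TrivSqZeroExt.isUnit_iff_isUnit_fst]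
  have hy : (y : P) ≠ 0 := nonZeroDivisors.ne_zero y.2
  simp [toTSZ, hy]

/-- Lift to the fraction field. -/
noncomputable def liftTSZ (d : Derivation ℤ P F) : F →+* TrivSqZeroExt F F :=
  IsLocalization.lift (M := nonZeroDivisors P) (toTSZ_unit d)

lemma liftTSZ_fst (d : Derivation ℤ P F) (x : F) : (liftTSZ d x).fst = x := by
  have h : (TrivSqZeroExt.fstHom ℤ F F).toRingHom.comp (liftTSZ d) = RingHom.id F := by
    apply IsLocalization.ringHom_ext (M := nonZeroDivisors P)
    ext p
    simp [liftTSZ, toTSZ]
  exact RingHom.congr_fun h x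

/-- Extension of a derivation to the fraction field. -/
noncomputable def extDer (d : Derivation ℤ P F) : Derivation ℤ F F where
  toFun x := (liftTSZ d x).snd
  map_add' x y := by simp
  map_smul' n x := by simp
  map_one_eq_zero' := by simp
  leibniz' x y := by
    simp [liftTSZ_fst]
    ring

lemma extDer_algebraMap (d : Derivation ℤ P F) (p : P) : extDer d (algebraMap P F p) = d p := by
  simp [extDer, liftTSZ, toTSZ]

end Ext

/-- In characteristic three the cube of a derivation is a derivation. -/
lemma cube_leibniz {F : Type} [Field F] [CharP F 3] (D : Derivation ℤ F F) (x y : F) :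
    D (D (D (x * y))) = x * D (D (D y)) + y * D (D (D x)) := by
  have h3 : (3 : F) = 0 := by
    have := CharP.cast_eq_zero F 3
    exact_mod_cast this
  simp only [Derivation.leibniz, smul_eq_mul, map_add]
  linear_combination (D x * D (D y) + D y * D (D x)) * h3

/-- Index type of the variables. -/
inductive Idx : Type
  | z (n : ℕ) : Idx
  | a (n : ℕ) : Idx
  | b (n : ℕ) : Idx
  deriving DecidableEq

/-- The polynomial ring. -/
abbrev PP : Type := MvPolynomial Idx (ZMod 3)

instance : Fact (Nat.Prime 3) := ⟨Nat.prime_three⟩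

section Field

variable {F : Type} [Field F] [Algebra PP F] [IsFractionRing PP F]

/-- The generators in the field. -/
noncomputable def gen (F : Type) [Field F] [Algebra PP F] (i : Idx) : F := algebraMap PP F (X i)

/-- A subfield containing the generators is everything. -/
lemma subfield_eq_top (S : Subfield F) (h : ∀ i, gen F i ∈ S) : S = ⊤ := by
  have h1 : ∀ p : PP, algebraMap PP F p ∈ S := by
    intro p
    induction p using MvPolynomial.induction_on with
    | C r =>
      obtain ⟨n, rfl⟩ := ZMod.intCast_surjective r
      simp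
    | add p q hp hq => rw [map_add]; exact S.add_mem hp hq
    | mul_X p i hp => rw [map_mul]; exact S.mul_mem hp (h i)
  rw [eq_top_iff]
  intro x _
  obtain ⟨p, q, _, rfl⟩ := IsFractionRing.div_surjective (A := PP) x
  exact S.div_mem (h1 p) (h1 q)

/-- Vanishing of a twisted derivation can be checked on generators. -/
lemma zero_of_gen {R : Type} [Field R] (φ : F →+* R) (δ : F →+ R)
    (h : ∀ x y, δ (x * y) = φ x * δ y + φ y * δ x) (hg : ∀ i, δ (gen F i) = 0) (x : F) :
    δ x = 0 := by
  have h1 : δ 1 = 0 := by
    have := h 1 1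
    simp only [mul_one, map_one, one_mul] at this
    exact left_eq_add.mp this
  let S : Subfield F :=
    { carrier := {x | δ x = 0}
      mul_mem' := by
        intro x y hx hy
        change δ x = 0 at hx
        change δ y = 0 at hy
        change δ (x * y) = 0
        rw [h, hx, hy]; simp
      one_mem' := h1
      add_mem' := by
        intro x y hx hy
        change δ x = 0 at hx
        change δ y = 0 at hy
        change δ (x + y) = 0
        rw [map_add, hx, hy]; simp
      zero_mem' := map_zero δ
      neg_mem' := by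
        intro x hx
        change δ x = 0 at hx
        change δ (-x) = 0
        rw [map_neg, hx]; simp
      inv_mem' := by
        intro x hx
        change δ x = 0 at hx
        change δ (x⁻¹) = 0
        by_cases hx0 : x = 0
        · rw [hx0]; simp
        · have h2 := h x x⁻¹
          rw [mul_inv_cancel₀ hx0, h1, hx, mul_zero, add_zero] at h2
          have h3 : φ x ≠ 0 := by
            rw [Ne, map_eq_zero]; exact hx0
          exact (mul_eq_zero.mp h2.symm).resolve_left h3 }
  have hS : S = ⊤ := subfield_eq_top S hg
  have : x ∈ S := by rw [hS]; trivial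
  exact this

/-- Vanishing of a derivation can be checked on generators. -/
lemma der_eq_zero (D : Derivation ℤ F F) (hg : ∀ i, D (gen F i) = 0) (x : F) : D x = 0 := by
  refine zero_of_gen (RingHom.id F) D.toLinearMap.toAddMonoidHom ?_ ?_ x
  · intro x y
    simp [Derivation.leibniz]
  · intro i
    simpa using hg i

/-- The partial derivative with respect to `z j`. -/
noncomputable def dd (F : Type) [Field F] [Algebra PP F] [IsFractionRing PP F] (j : ℕ) :
    Derivation ℤ F F :=
  extDer ((Algebra.linearMap PP F).compDer ((pderiv (Idx.z j)).restrictScalars ℤ))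

lemma dd_algebraMap (j : ℕ) (p : PP) :
    dd F j (algebraMap PP F p) = algebraMap PP F (pderiv (Idx.z j) p) := by
  rw [dd, extDer_algebraMap]
  rfl

lemma dd_gen_z (j i : ℕ) : dd F j (gen F (Idx.z i)) = if i = j then 1 else 0 := by
  rw [gen, dd_algebraMap, pderiv_X]
  by_cases h : i = j
  · subst h; simp
  · simp [h]

lemma dd_gen_a (j i : ℕ) : dd F j (gen F (Idx.a i)) = 0 := by
  rw [gen, dd_algebraMap, pderiv_X]
  simp

lemma dd_gen_b (j i : ℕ) : dd F j (gen F (Idx.b i)) = 0 := by
  rw [gen, dd_algebraMap, pderiv_X]
  simp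

lemma dd_comm (i j : ℕ) (x : F) : dd F i (dd F j x) = dd F j (dd F i x) := by
  have h := der_eq_zero ⁅dd F i, dd F j⁆ (by
    intro k
    rw [Derivation.commutator_apply]
    cases k with
    | z n => rw [dd_gen_z, dd_gen_z]; split_ifs <;> simp
    | a n => rw [dd_gen_a, dd_gen_a]; simp
    | b n => rw [dd_gen_b, dd_gen_b]; simp) x
  rw [Derivation.commutator_apply, sub_eq_zero] at h
  exact h

lemma dd_cube [CharP F 3] (j : ℕ) (x : F) : dd F j (dd F j (dd F j x)) = 0 := by
  let δ : F →+ F :=
    { toFun := fun x => dd F j (dd F j (dd F j x))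
      map_zero' := by simp
      map_add' := by intro x y; simp }
  refine zero_of_gen (RingHom.id F) δ ?_ ?_ x
  · intro x y
    exact cube_leibniz (dd F j) x y
  · intro k
    change dd F j (dd F j (dd F j (gen F k))) = 0
    cases k with
    | z n => rw [dd_gen_z]; split_ifs <;> simp
    | a n => rw [dd_gen_a]; simp
    | b n => rw [dd_gen_b]; simp

/-- Local finiteness. -/
lemma dd_finite (x : F) : ∃ n : ℕ, ∀ j, n ≤ j → dd F j x = 0 := by
  have hp : ∀ p : PP, ∃ n : ℕ, ∀ j, n ≤ j → dd F j (algebraMap PP F p) = 0 := by
    intro p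
    induction p using MvPolynomial.induction_on with
    | C r =>
      refine ⟨0, fun j _ => ?_⟩
      rw [dd_algebraMap, pderiv_C, map_zero]
    | add p q hp hq =>
      obtain ⟨n, hn⟩ := hp
      obtain ⟨m, hm⟩ := hq
      refine ⟨max n m, fun j hj => ?_⟩
      rw [map_add, map_add, hn j (le_trans (le_max_left _ _) hj),
        hm j (le_trans (le_max_right _ _) hj), add_zero]
    | mul_X p i hp =>
      obtain ⟨n, hn⟩ := hp
      have hX : ∃ m : ℕ, ∀ j, m ≤ j → dd F j (gen F i) = 0 := by
        cases i with
        | z k =>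
          refine ⟨k + 1, fun j hj => ?_⟩
          rw [dd_gen_z, if_neg (by omega)]
        | a k => exact ⟨0, fun j _ => dd_gen_a j k⟩
        | b k => exact ⟨0, fun j _ => dd_gen_b j k⟩
      obtain ⟨m, hm⟩ := hX
      refine ⟨max n m, fun j hj => ?_⟩
      have h2 := hm j (le_trans (le_max_right _ _) hj)
      rw [gen] at h2
      rw [map_mul, Derivation.leibniz, hn j (le_trans (le_max_left _ _) hj), h2]
      simp
  obtain ⟨p, q, hq, rfl⟩ := IsFractionRing.div_surjective (A := PP) x
  obtain ⟨n, hn⟩ := hp p
  obtain ⟨m, hm⟩ := hp q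
  refine ⟨max n m, fun j hj => ?_⟩
  rw [div_eq_mul_inv, Derivation.leibniz, Derivation.leibniz_inv,
    hn j (le_trans (le_max_left _ _) hj), hm j (le_trans (le_max_right _ _) hj)]
  simp

end Field

section Embed

variable (F : Type) [Field F] [Algebra PP F] [IsFractionRing PP F]

/-- The weighted substitution `X i ↦ ε ^ (e i) * X i` on polynomials. -/
noncomputable def wt (e : Idx → ℤ) : PP →+* HahnSeries ℤ F :=
  eval₂Hom (HahnSeries.C.comp ((algebraMap PP F).comp MvPolynomial.C))
    (fun i => HahnSeries.single (e i) (gen F i))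

/-- weight of a monomial -/
def wtm (e : Idx → ℤ) (m : Idx →₀ ℕ) : ℤ := m.sum (fun i k => (k : ℤ) * e i)

variable {F}

lemma wt_X (e : Idx → ℤ) (i : Idx) : wt F e (X i) = HahnSeries.single (e i) (gen F i) := by
  simp [wt]

lemma wt_C (e : Idx → ℤ) (c : ZMod 3) :
    wt F e (C c) = HahnSeries.single 0 (algebraMap PP F (C c)) := by
  simp only [wt, coe_eval₂Hom, eval₂_C]
  rfl

lemma wt_monomial (e : Idx → ℤ) (m : Idx →₀ ℕ) (c : ZMod 3) :
    wt F e (monomial m c) = HahnSeries.single (wtm e m) (algebraMap PP F (monomial m c)) := by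
  induction m using Finsupp.induction_linear generalizing c with
  | zero =>
    have : (monomial (0 : Idx →₀ ℕ) c : PP) = C c := rfl
    rw [this, wt_C]
    simp [wtm]
  | add f g hf hg =>
    have h1 : (monomial (f + g) c : PP) = monomial f c * monomial g 1 := by
      rw [monomial_mul, mul_one]
    have h2 : wtm e (f + g) = wtm e f + wtm e g := by
      rw [wtm, wtm, wtm, Finsupp.sum_add_index']
      · intro i; simp
      · intro i a b; push_cast; ring
    rw [h1, RingHom.map_mul (wt F e), hf, hg, HahnSeries.single_mul_single,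
      ← RingHom.map_mul (algebraMap PP F), h2]
  | single i k =>
    have h1 : (monomial (Finsupp.single i k) c : PP) = C c * X i ^ k := by
      rw [X_pow_eq_monomial, C_mul_monomial, mul_one]
    have h2 : wtm e (Finsupp.single i k) = k • e i := by
      rw [wtm, Finsupp.sum_single_index] <;> simp
    rw [h1, RingHom.map_mul (wt F e), RingHom.map_pow (wt F e), wt_X, wt_C,
      HahnSeries.single_pow, HahnSeries.single_mul_single, h2, zero_add,
      RingHom.map_mul (algebraMap PP F), RingHom.map_pow (algebraMap PP F)]
    rfl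

lemma wt_ne_zero (e : Idx → ℤ) (p : PP) (hp : p ≠ 0) : wt F e p ≠ 0 := by
  classical
  obtain ⟨m0, hm0⟩ := (support_nonempty (p := p)).mpr hp
  intro h
  have h1 : (wt F e p).coeff (wtm e m0) = 0 := by rw [h]; rfl
  have h2 : p = ∑ m ∈ p.support, monomial m (coeff m p) := as_sum p
  set q : PP := ∑ m ∈ p.support.filter (fun m => wtm e m = wtm e m0), monomial m (coeff m p)
    with hq
  have h3 : (wt F e p).coeff (wtm e m0) = algebraMap PP F q := by
    conv_lhs => rw [h2]
    rw [map_sum, HahnSeries.coeff_sum, hq, map_sum, Finset.sum_filter]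
    refine Finset.sum_congr rfl fun m _ => ?_
    rw [wt_monomial, HahnSeries.coeff_single]
    by_cases hm : wtm e m = wtm e m0
    · rw [if_pos hm, if_pos hm.symm]
    · rw [if_neg hm, if_neg (fun h => hm h.symm)]
  have h4 : q = 0 := by
    have h5 : algebraMap PP F q = algebraMap PP F 0 := by rw [← h3, h1, map_zero]
    exact IsFractionRing.injective PP F h5
  have h6 : coeff m0 q = coeff m0 p := by
    rw [hq, coeff_sum]
    rw [Finset.sum_eq_single m0]
    · simp
    · intro m _ hne
      rw [coeff_monomial, if_neg hne]
    · intro hn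
      exact absurd (show m0 ∈ p.support.filter (fun m => wtm e m = wtm e m0) from
        Finset.mem_filter.mpr ⟨hm0, rfl⟩) hn
  rw [h4] at h6
  exact (mem_support_iff.mp hm0) (by rw [← h6]; simp)

lemma wt_injective (e : Idx → ℤ) : Function.Injective (wt F e) := by
  rw [injective_iff_map_eq_zero]
  intro p hp
  by_contra h
  exact wt_ne_zero e p h hp

/-- The weighted embedding of the rational function field in Laurent series. -/
noncomputable def emb (F : Type) [Field F] [Algebra PP F] [IsFractionRing PP F]
    (e : Idx → ℤ) : F →+* HahnSeries ℤ F :=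
  IsFractionRing.lift (wt_injective (F := F) e)

lemma emb_gen (e : Idx → ℤ) (i : Idx) :
    emb F e (gen F i) = HahnSeries.single (e i) (gen F i) := by
  rw [emb, gen, IsFractionRing.lift_algebraMap, wt_X]
  rfl

/-- A derivation acting coefficientwise on Laurent series. -/
noncomputable def lmap {F : Type} [Field F] (δ : Derivation ℤ F F) (x : HahnSeries ℤ F) :
    HahnSeries ℤ F where
  coeff k := δ (x.coeff k)
  isPWO_support' := x.isPWO_support.mono (by
    intro k hk h0
    have h0' : x.coeff k = 0 := h0
    exact hk (by change δ (x.coeff k) = 0; rw [h0', map_zero]))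

lemma lmap_coeff {F : Type} [Field F] (δ : Derivation ℤ F F) (x : HahnSeries ℤ F) (k : ℤ) :
    (lmap δ x).coeff k = δ (x.coeff k) := rfl

/-- A derivation acting coefficientwise on Laurent series, as an additive map. -/
noncomputable def lD {F : Type} [Field F] (δ : Derivation ℤ F F) :
    HahnSeries ℤ F →+ HahnSeries ℤ F where
  toFun := lmap δ
  map_zero' := by ext k; rw [lmap_coeff]; simp
  map_add' := by intro x y; ext k; rw [lmap_coeff]; simp [lmap_coeff]

lemma lD_coeff {F : Type} [Field F] (δ : Derivation ℤ F F) (x : HahnSeries ℤ F) (k : ℤ) :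
    (lD δ x).coeff k = δ (x.coeff k) := rfl

lemma lD_mul {F : Type} [Field F] (δ : Derivation ℤ F F) (x y : HahnSeries ℤ F) :
    lD δ (x * y) = x * lD δ y + y * lD δ x := by
  ext k
  change δ ((x * y).coeff k) = (x * lmap δ y + y * lmap δ x).coeff k
  have h1 : (x * lmap δ y).coeff k = ∑ ij ∈ Finset.antidiagonal x.isPWO_support
      y.isPWO_support k, x.coeff ij.1 * δ (y.coeff ij.2) := by
    rw [HahnSeries.coeff_mul_right' y.isPWO_support]
    · rfl
    · intro k hk h0
      have h0' : y.coeff k = 0 := h0
      exact hk (by rw [lmap_coeff, h0', map_zero])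
  have h2 : (y * lmap δ x).coeff k = ∑ ij ∈ Finset.antidiagonal x.isPWO_support
      y.isPWO_support k, y.coeff ij.2 * δ (x.coeff ij.1) := by
    rw [mul_comm, HahnSeries.coeff_mul_left' x.isPWO_support]
    · refine Finset.sum_congr rfl fun ij _ => ?_
      rw [lmap_coeff, mul_comm]
    · intro k hk h0
      have h0' : x.coeff k = 0 := h0
      exact hk (by rw [lmap_coeff, h0', map_zero])
  rw [HahnSeries.coeff_add, h1, h2, HahnSeries.coeff_mul, map_sum, ← Finset.sum_add_distrib]
  refine Finset.sum_congr rfl fun ij _ => ?_
  rw [Derivation.leibniz, smul_eq_mul, smul_eq_mul]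

lemma lD_single {F : Type} [Field F] (δ : Derivation ℤ F F) (k : ℤ) (r : F) :
    lD δ (HahnSeries.single k r) = HahnSeries.single k (δ r) := by
  ext j
  rw [lD_coeff, HahnSeries.coeff_single, HahnSeries.coeff_single]
  split_ifs <;> simp

/-- The embedding commutes with the partial derivatives when the `z` have weight zero. -/
lemma emb_dd (e : Idx → ℤ) (he : ∀ j, e (Idx.z j) = 0) (j : ℕ) (x : F) :
    emb F e (dd F j x) = lD (dd F j) (emb F e x) := by
  let δ : F →+ HahnSeries ℤ F :=
    { toFun := fun x => emb F e (dd F j x) - lD (dd F j) (emb F e x)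
      map_zero' := by simp
      map_add' := by intro x y; simp only [map_add]; ring }
  have h := zero_of_gen (emb F e) δ (by
    intro x y
    change emb F e (dd F j (x * y)) - lD (dd F j) (emb F e (x * y))
      = emb F e x * (emb F e (dd F j y) - lD (dd F j) (emb F e y))
        + emb F e y * (emb F e (dd F j x) - lD (dd F j) (emb F e x))
    simp only [Derivation.leibniz, map_add, map_mul, smul_eq_mul, lD_mul]
    ring) (by
    intro i
    change emb F e (dd F j (gen F i)) - lD (dd F j) (emb F e (gen F i)) = 0
    rw [emb_gen, lD_single]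
    cases i with
    | z n =>
      rw [dd_gen_z, he]
      split_ifs
      · rw [map_one, HahnSeries.single_zero_one, sub_self]
      · simp
    | a n => rw [dd_gen_a]; simp
    | b n => rw [dd_gen_b]; simp) x
  exact sub_eq_zero.mp h

end Embed

end Pool.Agent.Helper619
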