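import Pool.Agent.Helper619.Field

set_option autoImplicit false
set_option linter.unusedSectionVars false

namespace Pool.Agent.Helper619

section Finite

variable {F : Type} [Field F] [Algebra PP F] [IsFractionRing PP F]

/-- `Es n` as a module over the constants. -/
noncomputable def EsM (F : Type) [Field F] [Algebra PP F] [IsFractionRing PP F] (n : ℕ) :
    Submodule (Es F 0) F where
  carrier := {x | x ∈ Es F n}
  add_mem' := fun hx hy => (Es F n).add_mem hx hy
  zero_mem' := (Es F n).zero_mem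
  smul_mem' := fun c _ hx => (Es F n).mul_mem (Es_mono (Nat.zero_le n) c.2) hx

lemma mem_EsM {n : ℕ} {x : F} : x ∈ EsM F n ↔ x ∈ Es F n := Iff.rfl

/-- multiplication as a linear map over constants -/
noncomputable def mulL (F : Type) [Field F] [Algebra PP F] [IsFractionRing PP F] (c : F) :
    F →ₗ[Es F 0] F where
  toFun x := x * c
  map_add' x y := add_mul x y c
  map_smul' r x := by
    change (r : F) * x * c = (r : F) * (x * c)
    ring

lemma EsM_fg [CharP F 3] (n : ℕ) : (EsM F n).FG := by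
  induction n with
  | zero =>
    refine ⟨{1}, ?_⟩
    apply le_antisymm
    · rw [Submodule.span_le]
      intro x hx
      simp only [Finset.coe_singleton, Set.mem_singleton_iff] at hx
      rw [hx]
      exact (Es F 0).one_mem
    · intro x hx
      have h1 : x = (⟨x, hx⟩ : Es F 0) • (1 : F) := by
        change x = x * 1
        rw [mul_one]
      rw [h1]
      exact Submodule.smul_mem _ _ (Submodule.subset_span (by simp))
  | succ n ih =>
    have h : EsM F (n + 1) = EsM F n ⊔ ((EsM F n).map (mulL F (zz F n))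
        ⊔ (EsM F n).map (mulL F (zz F n ^ 2))) := by
      apply le_antisymm
      · intro x hx
        obtain ⟨x0, hx0, x1, hx1, x2, hx2, rfl⟩ := decomp n hx
        rw [add_assoc]
        refine Submodule.add_mem_sup hx0 (Submodule.add_mem_sup ?_ ?_)
        · exact ⟨x1, hx1, rfl⟩
        · exact ⟨x2, hx2, rfl⟩
      · refine sup_le ?_ (sup_le ?_ ?_)
        · intro x hx; exact Es_mono (Nat.le_succ n) hx
        · rintro _ ⟨x, hx, rfl⟩
          exact (Es F (n + 1)).mul_mem (Es_mono (Nat.le_succ n) hx) (zz_mem (Nat.lt_succ_self n))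
        · rintro _ ⟨x, hx, rfl⟩
          exact (Es F (n + 1)).mul_mem (Es_mono (Nat.le_succ n) hx)
            ((Es F (n + 1)).pow_mem (zz_mem (Nat.lt_succ_self n)) 2)
    rw [h]
    exact ih.sup ((ih.map _).sup (ih.map _))

instance EsM_finite [CharP F 3] (n : ℕ) : Module.Finite (Es F 0) (EsM F n) :=
  Module.Finite.iff_fg.mpr (EsM_fg n)

end Finite

section Weights

variable {F : Type} [Field F] [Algebra PP F] [IsFractionRing PP F]

lemma emb_om (e : Idx → ℤ) (he : ∀ j, e (Idx.z j) = 0) (n : ℕ) :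
    emb F e (om F n) = HahnSeries.single 0 (om F n) := by
  induction n with
  | zero => rw [om_zero, map_one, HahnSeries.single_zero_one]
  | succ n ih =>
    rw [om_succ, map_mul, map_pow, ih, zz, emb_gen, he, HahnSeries.single_pow,
      HahnSeries.single_mul_single]
    simp

lemma single_add' (k : ℤ) (r s : F) : HahnSeries.single k (r + s)
    = HahnSeries.single k r + HahnSeries.single k s := by
  ext j
  rw [HahnSeries.coeff_add, HahnSeries.coeff_single, HahnSeries.coeff_single,
    HahnSeries.coeff_single]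
  split_ifs <;> simp

lemma lD_add_smul (δ δ' : Derivation ℤ F F) (c : F) (x : HahnSeries ℤ F) :
    lD (δ + c • δ') x = lD δ x + HahnSeries.single 0 c * lD δ' x := by
  ext k
  rw [HahnSeries.coeff_add, HahnSeries.coeff_single_zero_mul, lD_coeff, lD_coeff, lD_coeff]
  rfl

lemma lD_smul (δ : Derivation ℤ F F) (c : F) (x : HahnSeries ℤ F) :
    lD (c • δ) x = HahnSeries.single 0 c * lD δ x := by
  ext k
  rw [HahnSeries.coeff_single_zero_mul, lD_coeff, lD_coeff]
  rfl

lemma emb_hφC (e : Idx → ℤ) (he : ∀ j, e (Idx.z j) = 0) (x : F)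
    (hx : ∀ k, (emb F e x).coeff k ∈ Es F 0) : x ∈ Es F 0 := by
  intro j hj
  have h : emb F e (dd F j x) = 0 := by
    rw [emb_dd e he]
    ext k
    rw [lD_coeff, hx k j hj]
    rfl
  exact (map_eq_zero _).mp h

lemma emb_coeff_mem (e : Idx → ℤ) (he : ∀ j, e (Idx.z j) = 0) {n : ℕ} {x : F}
    (hx : x ∈ Es F n) (k : ℤ) : (emb F e x).coeff k ∈ Es F n := by
  intro j hj
  rw [← lD_coeff, ← emb_dd e he, hx j hj, map_zero]
  rfl

/-- First type of weights. -/
def e1 (n : ℕ) : Idx → ℤ
  | Idx.z _ => 0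
  | Idx.a j => if j = n then -1 else 0
  | Idx.b j => if j = n then -1 else 0

/-- Second type of weights. -/
def e2 (n : ℕ) : Idx → ℤ
  | Idx.z _ => 0
  | Idx.a j => if j < n then 1 else 0
  | Idx.b j => if j ≤ n then 1 else 0

lemma e1z (n : ℕ) : ∀ j, e1 n (Idx.z j) = 0 := fun _ => rfl
lemma e2z (n : ℕ) : ∀ j, e2 n (Idx.z j) = 0 := fun _ => rfl

lemma emb1_hh (n k : ℕ) (hk : k < n) : emb F (e1 n) (hh F k) = HahnSeries.single 0 (hh F k) := by
  have ha : e1 n (Idx.a k) = 0 := by simp [e1, ne_of_lt hk]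
  have hb : e1 n (Idx.b k) = 0 := by simp [e1, ne_of_lt hk]
  rw [hh, ww, map_add, map_mul, map_add, map_mul, emb_om _ (e1z n), emb_gen, emb_gen, emb_gen,
    ha, hb, e1z]
  simp only [HahnSeries.single_mul_single, single_add', add_mul, zero_add]

lemma emb1_hhn (n : ℕ) : emb F (e1 n) (hh F n)
    = HahnSeries.single 0 (om F n) + HahnSeries.single (-1) (ww F n * zz F n) := by
  have ha : e1 n (Idx.a n) = -1 := by simp [e1]
  have hb : e1 n (Idx.b n) = -1 := by simp [e1]
  rw [hh, ww, zz, map_add, map_mul, map_add, map_mul, emb_om _ (e1z n), emb_gen, emb_gen, emb_gen,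
    ha, hb, e1z]
  simp only [HahnSeries.single_mul_single, single_add', add_mul, add_zero]

lemma emb1_Dn (n k : ℕ) (hk : k ≤ n) (u : F) :
    emb F (e1 n) (Dn F k u) = lD (Dn F k) (emb F (e1 n) u) := by
  induction k with
  | zero =>
    rw [Dn_zero, map_zero]
    ext j
    rw [lD_coeff, Dn_zero]
    rfl
  | succ k ih =>
    rw [Dn_succ, map_add, map_mul, ih (by omega), emb1_hh n k (by omega), emb_dd _ (e1z n)]
    exact (lD_add_smul _ _ _ _).symm

/-- integral part of the derivation at level `n` -/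
noncomputable def D1 (F : Type) [Field F] [Algebra PP F] [IsFractionRing PP F] (n : ℕ) :
    Derivation ℤ F F := Dn F n + om F n • dd F n

/-- the Euler derivation at level `n` -/
noncomputable def th (F : Type) [Field F] [Algebra PP F] [IsFractionRing PP F] (n : ℕ) :
    Derivation ℤ F F := zz F n • dd F n

lemma D1_apply (n : ℕ) (x : F) : D1 F n x = Dn F n x + om F n * dd F n x := rfl
lemma th_apply (n : ℕ) (x : F) : th F n x = zz F n * dd F n x := rfl

/-- first Laurent derivation -/
noncomputable def DD1 (F : Type) [Field F] [Algebra PP F] [IsFractionRing PP F] (n : ℕ) :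
    HahnSeries ℤ F →+ HahnSeries ℤ F :=
  lD (D1 F n) + (AddMonoidHom.mulLeft (HahnSeries.single (-1) (ww F n))).comp (lD (th F n))

lemma DD1_apply (n : ℕ) (x : HahnSeries ℤ F) :
    DD1 F n x = lD (D1 F n) x + HahnSeries.single (-1) (ww F n) * lD (th F n) x := rfl

lemma emb1_main (n : ℕ) (u : F) :
    emb F (e1 n) (Dn F (n + 1) u) = DD1 F n (emb F (e1 n) u) := by
  rw [Dn_succ, map_add, map_mul, emb1_Dn n n le_rfl, emb1_hhn, emb_dd _ (e1z n), DD1_apply,
    D1, th, lD_add_smul, lD_smul]
  have : HahnSeries.single (-1) (ww F n * zz F n)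
      = HahnSeries.single (-1) (ww F n) * HahnSeries.single 0 (zz F n) := by
    rw [HahnSeries.single_mul_single, add_zero]
  rw [this]
  ring

lemma emb2_hh (n k : ℕ) (hk : k < n) : emb F (e2 n) (hh F k)
    = HahnSeries.single 0 (om F k) + HahnSeries.single 1 1 * HahnSeries.single 0 (ww F k * zz F k)
    := by
  have ha : e2 n (Idx.a k) = 1 := by simp [e2, hk]
  have hb : e2 n (Idx.b k) = 1 := by simp [e2, le_of_lt hk]
  rw [hh, ww, zz, map_add, map_mul, map_add, map_mul, emb_om _ (e2z n), emb_gen, emb_gen, emb_gen,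
    ha, hb, e2z]
  simp only [HahnSeries.single_mul_single, single_add', add_mul, mul_add, add_zero, one_mul]

lemma emb2_Dn (n k : ℕ) (hk : k ≤ n) (u : F) :
    emb F (e2 n) (Dn F k u) = lD (An F k) (emb F (e2 n) u)
      + HahnSeries.single 1 1 * lD (Mn F k) (emb F (e2 n) u) := by
  induction k with
  | zero =>
    rw [Dn_zero, map_zero]
    have h1 : lD (An F 0) (emb F (e2 n) u) = 0 := by
      ext j; rw [lD_coeff, An_zero]; rfl
    have h2 : lD (Mn F 0) (emb F (e2 n) u) = 0 := by
      ext j; rw [lD_coeff, Mn_zero]; rfl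
    rw [h1, h2, mul_zero, add_zero]
  | succ k ih =>
    rw [Dn_succ, map_add, map_mul, ih (by omega), emb2_hh n k (by omega), emb_dd _ (e2z n)]
    have h1 : lD (An F (k + 1)) (emb F (e2 n) u) = lD (An F k) (emb F (e2 n) u)
        + HahnSeries.single 0 (om F k) * lD (dd F k) (emb F (e2 n) u) := lD_add_smul _ _ _ _
    have h2 : lD (Mn F (k + 1)) (emb F (e2 n) u) = lD (Mn F k) (emb F (e2 n) u)
        + HahnSeries.single 0 (ww F k * zz F k) * lD (dd F k) (emb F (e2 n) u) :=
      lD_add_smul _ _ _ _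
    rw [h1, h2]
    ring

lemma emb2_ww (n : ℕ) : emb F (e2 n) (ww F n)
    = HahnSeries.single 0 (aa F n) + HahnSeries.single 1 1 * HahnSeries.single 0 (bb F n * om F n)
    := by
  have ha : e2 n (Idx.a n) = 0 := by simp [e2]
  have hb : e2 n (Idx.b n) = 1 := by simp [e2]
  rw [ww, aa, bb, map_add, map_mul, emb_om _ (e2z n), emb_gen, emb_gen, ha, hb]
  simp only [HahnSeries.single_mul_single, add_zero, one_mul]

lemma ww_ne (n : ℕ) : ww F n ≠ 0 := by
  intro h
  have h1 := emb2_ww (F := F) n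
  rw [h, map_zero] at h1
  have h2 := congrArg (fun x => HahnSeries.coeff x 0) h1
  simp only [HahnSeries.coeff_zero, HahnSeries.coeff_add, HahnSeries.single_mul_single,
    HahnSeries.coeff_single_same, add_zero] at h2
  rw [HahnSeries.coeff_single_of_ne (by norm_num), add_zero] at h2
  exact gen_ne (F := F) (Idx.a n) h2.symm

end Weights

section Irr

variable {F : Type} [Field F] [Algebra PP F] [IsFractionRing PP F] [CharP F 3]

/-- The irreducibility statement at level `n`. -/
theorem irr (n : ℕ) (U : AddSubgroup F) (hUC : ∀ c ∈ Es F 0, ∀ u ∈ U, c * u ∈ U)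
    (hUE : ∀ u ∈ U, u ∈ Es F n) (h1 : (1 : F) ∈ U)
    (hcl : ∀ u ∈ U, (ww F n)⁻¹ * Dn F n u ∈ U) (hex : ∃ u ∈ U, u ∉ Es F 0) :
    ∀ x ∈ Es F n, x ∈ U := by
  obtain ⟨u0, hu0, hu0C⟩ := hex
  have hn : n ≠ 0 := by
    rintro rfl
    exact hu0C (hUE u0 hu0)
  have hn0 : 0 < n := Nat.pos_of_ne_zero hn
  set φ := emb F (e2 n) with hφ
  set C := Es F 0 with hC
  have hφC := emb_hφC (F := F) (e2 n) (e2z n)
  have hφC' : ∀ c ∈ C, φ c ∈ Ce C := fun c hc k => emb_coeff_mem (e2 n) (e2z n) hc k
  have hcoef : ∀ v ∈ (U : Set F), ∀ k, (φ v).coeff k ∈ Es F n :=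
    fun v hv k => emb_coeff_mem (e2 n) (e2z n) (hUE v hv) k
  obtain ⟨hA1, hA2, hA3C, hA3⟩ := An_facts (F := F) n
  have hpow : 3 ^ n - 1 + 1 = 3 ^ n := Nat.sub_add_cancel (Nat.one_le_iff_ne_zero.mpr (by positivity))
  -- the derivation on Laurent series preserves the span
  have hDD : ∀ y ∈ WW C φ (U : Set F), (φ (ww F n))⁻¹ * (lD (An F n) y
      + HahnSeries.single 1 1 * lD (Mn F n) y) ∈ WW C φ (U : Set F) := by
    intro y hy
    induction hy using Submodule.span_induction with
    | mem x h =>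
      obtain ⟨v, hv, rfl⟩ := h
      rw [← emb2_Dn n n le_rfl v]
      have : (φ (ww F n))⁻¹ * φ (Dn F n v) = φ ((ww F n)⁻¹ * Dn F n v) := by
        rw [map_mul, map_inv₀]
      rw [this]
      exact WW_of_mem (hcl v hv)
    | zero => simp only [map_zero, mul_zero, add_zero]; exact Submodule.zero_mem _
    | add x y _ _ hx hy =>
      have := Submodule.add_mem _ hx hy
      rw [map_add, map_add]
      convert this using 1
      ring
    | smul c x _ hx =>
      have h1 : lD (An F n) (c • x) = (c : HahnSeries ℤ F) * lD (An F n) x :=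
        lD_Ce_mul _ (fun c hc => An_const n hc) c.2 x
      have h2 : lD (Mn F n) (c • x) = (c : HahnSeries ℤ F) * lD (Mn F n) x :=
        lD_Ce_mul _ (fun c hc => Mn_const n hc) c.2 x
      rw [h1, h2]
      have := WW_smul c.2 hx
      convert this using 1
      ring
  have hz0 : An F n (zz F 0) = 1 := by
    rw [show n = (n - 1) + 1 by omega]
    have : ∀ k, An F (k + 1) (zz F 0) = 1 := by
      intro k
      induction k with
      | zero => rw [An_succ, An_zero, om_zero, dd_zz_self]; ring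
      | succ k ih => rw [An_succ, ih, dd_zz_ne (by omega), mul_zero, add_zero]
    exact this _
  have hMz0 : Mn F n (zz F 0) = ww F 0 * zz F 0 := by
    rw [show n = (n - 1) + 1 by omega]
    have : ∀ k, Mn F (k + 1) (zz F 0) = ww F 0 * zz F 0 := by
      intro k
      induction k with
      | zero => rw [Mn_succ, Mn_zero, dd_zz_self]; ring
      | succ k ih => rw [Mn_succ, ih, dd_zz_ne (by omega), mul_zero, add_zero]
    exact this _
  have hAM : (An F n)^[3 ^ n - 1] (Mn F n (zz F 0)) = 0 := by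
    rw [hMz0, iter_smul (An F n) (An_const n (ww_mem 0))]
    have h3 : 3 ≤ 3 ^ n := by
      calc 3 = 3 ^ 1 := by norm_num
        _ ≤ 3 ^ n := Nat.pow_le_pow_right (by norm_num) hn0
    rw [show 3 ^ n - 1 = (3 ^ n - 3) + 1 + 1 by omega, Function.iterate_succ_apply,
      Function.iterate_succ_apply, hz0]
    have : An F n (1 : F) = 0 := Derivation.map_one_eq_zero _
    rw [this, iter_zero, mul_zero]
  -- nonconstant element
  obtain ⟨u, hu, huC⟩ : ∃ u ∈ PSV C φ (U : Set F), PowerSeries.constantCoeff u ∉ C := by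
    obtain ⟨x, y, hx, hy, _, hxy⟩ := exists_nonconst (C := C) (φ := φ) hφC u0 1 one_ne_zero
      (by rw [div_one]; exact hu0C)
    have hx' : x ∈ PSV C φ (U : Set F) := by
      refine (Submodule.span_mono (Set.image_mono ?_)) hx
      intro v hv
      rcases hv with rfl | hv
      · exact hu0
      · rw [Set.mem_singleton_iff.mp hv]; exact h1
    have hy' : y ∈ PSV C φ (U : Set F) := by
      refine (Submodule.span_mono (Set.image_mono ?_)) hy
      intro v hv
      rw [Set.mem_singleton_iff.mp hv]; exact h1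
    by_cases hxC : PowerSeries.constantCoeff x ∈ C
    · refine ⟨y, hy', fun hyC => hxy (C.div_mem hxC hyC)⟩
    · exact ⟨x, hx', hxC⟩
  have main := lemmaI C (Es F n) (Es_mono (Nat.zero_le n)) (An F n) (Mn F n)
    (fun c hc => An_const n hc) (fun x hx => An_mem n n le_rfl hx) (3 ^ n - 1)
    (by rw [hpow]; exact hA1) hA2 (zz F 0) (zz_mem hn0) hz0 hAM (om F n) hA3 hA3C
    (aa F n) (bb F n) (aa_mem n 0) (gen_ne _) (bb_mem n 0) (gen_ne _)
    (PSV C φ (U : Set F)) PSV_C PSV_sat
    (fun x hx m => by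
      rw [← toL_coeff_nat]
      exact WW_coeff (Es F n) (Es_mono (Nat.zero_le n)) hcoef hx _)
    (by
      rw [mem_PSV, toL_one, ← map_one φ]
      exact WW_of_mem h1)
    (by
      intro x hx s hs
      rw [mem_PSV]
      have h2 := congrArg toL hs
      rw [toL_mul, toL_add, toL_add, toL_mul, toL_mul, toL_C, toL_C, toL_X, toL_psD, toL_psD,
        ← emb2_ww n] at h2
      have hne : φ (ww F n) ≠ 0 := by rw [Ne, map_eq_zero]; exact ww_ne n
      have h3 : toL s = (φ (ww F n))⁻¹ * (lD (An F n) (toL x)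
          + HahnSeries.single 1 1 * lD (Mn F n) (toL x)) := by
        rw [← h2, inv_mul_cancel_left₀ hne]
      rw [h3]
      exact hDD _ hx)
    u hu huC
  let UM : Submodule C F :=
    { carrier := U
      add_mem' := fun hx hy => U.add_mem hx hy
      zero_mem' := U.zero_mem
      smul_mem' := fun c x hx => hUC c c.2 x hx }
  have := rank_arg (C := C) (φ := φ) hφC' UM (EsM F n) (fun x hx => hUE x hx)
    (fun e he => main e he)
  intro x hx
  exact this hx

/-- Constants of the derivation at level `n`. -/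
lemma const_Dn (n : ℕ) (x : F) (hx : x ∈ Es F n) (hDx : Dn F n x = 0) : x ∈ Es F 0 := by
  by_contra hxC
  have hn : n ≠ 0 := by
    rintro rfl
    exact hxC hx
  have hn0 : 0 < n := Nat.pos_of_ne_zero hn
  let U : AddSubgroup F :=
    { carrier := {u | ∃ c0 ∈ Es F 0, ∃ c1 ∈ Es F 0, u = c0 + c1 * x}
      add_mem' := by
        rintro _ _ ⟨c0, h0, c1, h1, rfl⟩ ⟨d0, h0', d1, h1', rfl⟩
        exact ⟨c0 + d0, (Es F 0).add_mem h0 h0', c1 + d1, (Es F 0).add_mem h1 h1', by ring⟩
      zero_mem' := ⟨0, (Es F 0).zero_mem, 0, (Es F 0).zero_mem, by ring⟩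
      neg_mem' := by
        rintro _ ⟨c0, h0, c1, h1, rfl⟩
        exact ⟨-c0, (Es F 0).neg_mem h0, -c1, (Es F 0).neg_mem h1, by ring⟩ }
  have hU0 : ∀ u ∈ U, Dn F n u = 0 := by
    rintro _ ⟨c0, h0, c1, h1, rfl⟩
    rw [map_add, Derivation.leibniz, Dn_const n h0, Dn_const n h1, hDx]
    simp
  have h := irr n U
    (by
      rintro c hc _ ⟨c0, h0, c1, h1, rfl⟩
      exact ⟨c * c0, (Es F 0).mul_mem hc h0, c * c1, (Es F 0).mul_mem hc h1, by ring⟩)
    (by
      rintro _ ⟨c0, h0, c1, h1, rfl⟩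
      exact (Es F n).add_mem (Es_mono (Nat.zero_le n) h0)
        ((Es F n).mul_mem (Es_mono (Nat.zero_le n) h1) hx))
    ⟨1, (Es F 0).one_mem, 0, (Es F 0).zero_mem, by ring⟩
    (by
      intro u hu
      rw [hU0 u hu, mul_zero]
      exact U.zero_mem)
    ⟨x, ⟨0, (Es F 0).zero_mem, 1, (Es F 0).one_mem, by ring⟩, hxC⟩
    (zz F 0) (zz_mem hn0)
  have h1 := hU0 _ h
  have h2 : Dn F n (zz F 0) = hh F 0 := by
    rw [Dn_stable (show 1 ≤ n from hn0) (zz_mem (by norm_num)), Dn_succ, Dn_zero, dd_zz_self]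
    ring
  rw [h2] at h1
  -- `hh 0 ≠ 0`
  have h3 : dd F 0 (hh F 0) = ww F 0 := by
    have hw : dd F 0 (ww F 0) = 0 := ww_mem 0 0 le_rfl
    have ho : dd F 0 (om F 0) = 0 := om_mem 0 0 le_rfl
    have hz : dd F 0 (gen F (Idx.z 0)) = 1 := dd_zz_self 0
    rw [hh, map_add, Derivation.leibniz, hw, ho, hz]
    simp
  rw [h1, map_zero] at h3
  exact ww_ne 0 h3.symm

end Irr

end Pool.Agent.Helper619
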